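import Pool.Agent.E8helper71.MC.Lat

/-!
# Reduction to transcendence degree one
-/

set_option autoImplicit false
set_option linter.unusedSectionVars false
set_option linter.style.haveILetI false

namespace Pool.Agent.E8helper71.MC

open Polynomial Finset
open Pool.Agent.W277.UB Pool.Agent.W277.UG Pool.Agent.W277.UH Pool.Agent.E8helper88.Mul
open Pool.Agent.Y676.CH Pool.Agent.Y706.CH Pool.Agent.Y195.CH

universe u v w

/-- the theorem for transcendence degree one -/
def MOne : Prop := ∀ (F Om : Type u) [Field F] [IsAlgClosed F] [CharZero F] [Field Om]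
    [IsAlgClosed Om] [Algebra F Om] (t : Om), Transcendental F t →
    Algebra.IsAlgebraic (IntermediateField.adjoin F {t}) Om → ∀ (d : ℕ), 2 ≤ d →
    ∀ (p q : Polynomial Om), IsCoprime p q → max p.natDegree q.natDegree = d →
    (∀ n, 1 ≤ n → ∀ lam, IsMul d p q n lam → lam ∈ (algebraMap F Om).range) →
    Lat d p q ∨ ∃ u w : Polynomial F, IsCoprime u w ∧ max u.natDegree w.natDegree = d ∧
      CjF d p q (u.map (algebraMap F Om)) (w.map (algebraMap F Om))

section
variable {Om : Type u} [Field Om]

lemma isAlg_iff (F : Subfield Om) (x : Om) :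
    IsAlgebraic F x ↔ ∃ P : Polynomial Om, P ≠ 0 ∧ (∀ i, P.coeff i ∈ F) ∧ P.eval x = 0 := by
  constructor
  · rintro ⟨P, hP0, hP⟩
    refine ⟨P.map (algebraMap F Om), (Polynomial.map_ne_zero_iff (algebraMap F Om).injective).mpr
      hP0, fun i => ?_, ?_⟩
    · rw [coeff_map]
      exact (P.coeff i).2
    · rw [eval_map_algebraMap]
      exact hP
  · rintro ⟨P, hP0, hc, hP⟩
    have h1 : P ∈ lifts (algebraMap F Om) := by
      rw [lifts_iff_coeff_lifts]
      intro n
      exact ⟨⟨P.coeff n, hc n⟩, rfl⟩
    obtain ⟨g, hg⟩ := h1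
    have hg' : g.map (algebraMap F Om) = P := hg
    refine ⟨g, ?_, ?_⟩
    · rintro rfl
      rw [Polynomial.map_zero] at hg'
      exact hP0 hg'.symm
    · rw [← eval_map_algebraMap, hg']
      exact hP

lemma rac_closed [IsAlgClosed Om] (F : Subfield Om) (hF : ∀ x : Om, IsAlgebraic F x → x ∈ F) :
    IsAlgClosed F := by
  apply IsAlgClosed.of_exists_root
  intro P hPm hPi
  have hdeg : (P.map (algebraMap F Om)).degree ≠ 0 := by
    rw [degree_map]
    exact hPi.degree_pos.ne'
  obtain ⟨x, hx⟩ := IsAlgClosed.exists_root (P.map (algebraMap F Om)) hdeg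
  have hx' : IsAlgebraic F x := ⟨P, hPm.ne_zero, by
    rw [← eval_map_algebraMap]
    exact hx⟩
  refine ⟨⟨x, hF x hx'⟩, ?_⟩
  apply (algebraMap F Om).injective
  rw [map_zero, ← eval_map_apply]
  exact hx

/-- the field obtained by adjoining an element and taking the algebraic closure -/
noncomputable def nxt (F : Subfield Om) (t : Om) : IntermediateField F Om :=
  (algebraicClosure (IntermediateField.adjoin F {t}) Om).restrictScalars F

lemma mem_nxt (F : Subfield Om) (t x : Om) :
    x ∈ nxt F t ↔ IsAlgebraic (IntermediateField.adjoin F {t}) x := by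
  unfold nxt
  rw [IntermediateField.mem_restrictScalars]
  exact mem_algebraicClosure_iff

lemma nxt_rac (F : Subfield Om) (t : Om) (x : Om) (hx : IsAlgebraic (nxt F t).toSubfield x) :
    x ∈ (nxt F t).toSubfield := by
  show x ∈ nxt F t
  rw [mem_nxt]
  have h1 : IsAlgebraic (algebraicClosure (IntermediateField.adjoin F {t}) Om) x := hx
  exact h1.restrictScalars _

lemma nxt_closed [IsAlgClosed Om] (F : Subfield Om) (t : Om) : IsAlgClosed (nxt F t) :=
  rac_closed (nxt F t).toSubfield (nxt_rac F t)

lemma le_nxt (F : Subfield Om) (t : Om) : F ≤ (nxt F t).toSubfield := by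
  intro x hx
  exact (nxt F t).algebraMap_mem ⟨x, hx⟩

lemma self_nxt (F : Subfield Om) (t : Om) : t ∈ nxt F t := by
  rw [mem_nxt]
  exact isAlgebraic_algebraMap (⟨t, IntermediateField.mem_adjoin_simple_self F t⟩ :
    IntermediateField.adjoin F {t})

lemma alg_sub' {F : Type v} [Field F] [Algebra F Om] (M : IntermediateField F Om) (t' : M)
    (hal : ∀ z : M, IsAlgebraic (IntermediateField.adjoin F {(t' : Om)}) (z : Om)) :
    Algebra.IsAlgebraic (IntermediateField.adjoin F {t'}) M := by
  constructor
  intro z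
  obtain ⟨P, hP0, hP⟩ := hal z
  set φ : IntermediateField.adjoin F {t'} →+* Om :=
    (algebraMap M Om).comp (algebraMap (IntermediateField.adjoin F {t'}) M) with hφ
  have h1 : P.map (algebraMap (IntermediateField.adjoin F {(t' : Om)}) Om) ∈ lifts φ := by
    rw [lifts_iff_coeff_lifts]
    intro n
    rw [coeff_map]
    obtain ⟨r, hr⟩ := adj_range M t' _ (P.coeff n).2
    exact ⟨r, hr⟩
  obtain ⟨q, hq⟩ := h1
  have hq' : q.map φ = P.map (algebraMap (IntermediateField.adjoin F {(t' : Om)}) Om) := hq
  refine ⟨q, ?_, ?_⟩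
  · rintro rfl
    rw [Polynomial.map_zero] at hq'
    exact hP0 ((Polynomial.map_eq_zero _).mp hq'.symm)
  · apply (algebraMap M Om).injective
    rw [map_zero]
    have h2 : (q.map φ).eval (z : Om) = 0 := by
      rw [hq', eval_map_algebraMap]
      exact hP
    rw [hφ, ← Polynomial.map_map] at h2
    have h3 : algebraMap M Om (aeval z q) =
        ((q.map (algebraMap (IntermediateField.adjoin F {t'}) M)).map (algebraMap M Om)).eval
          (algebraMap M Om z) := by
      rw [eval_map_apply, eval_map_algebraMap]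
    rw [h3]
    exact h2

lemma nxt_alg (F : Subfield Om) (t : Om) : Algebra.IsAlgebraic
    (IntermediateField.adjoin F {(⟨t, self_nxt F t⟩ : nxt F t)}) (nxt F t) :=
  alg_sub' (nxt F t) ⟨t, self_nxt F t⟩ fun z => (mem_nxt F t z).1 z.2

end

/-- **the reduction to transcendence degree one** -/
theorem mcm_list (hM1 : MOne.{u}) {Om : Type u} [Field Om] [IsAlgClosed Om] [CharZero Om] (d : ℕ)
    (hd : 2 ≤ d) (T : List Om) : ∀ (F : Subfield Om), (∀ x : Om, IsAlgebraic F x → x ∈ F) →
    ∀ (p q : Polynomial Om), IsCoprime p q → max p.natDegree q.natDegree = d →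
    (∀ i, p.coeff i ∈ Subfield.closure ((F : Set Om) ∪ {x | x ∈ T}) ∧
      q.coeff i ∈ Subfield.closure ((F : Set Om) ∪ {x | x ∈ T})) →
    (∀ n, 1 ≤ n → ∀ lam, IsMul d p q n lam → lam ∈ F) →
    Lat d p q ∨ ∃ u w : Polynomial Om, IsCoprime u w ∧ max u.natDegree w.natDegree = d ∧
      (∀ i, u.coeff i ∈ F) ∧ (∀ i, w.coeff i ∈ F) ∧ CjF d p q u w := by
  induction T with
  | nil =>
    intro F hF p q hco hmax hcoef hmul
    right
    have h1 : Subfield.closure ((F : Set Om) ∪ {x | x ∈ ([] : List Om)}) ≤ F := by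
      rw [Subfield.closure_le]
      rintro x (hx | hx)
      · exact hx
      · exact absurd hx (List.not_mem_nil)
    exact ⟨p, q, hco, hmax, fun i => h1 (hcoef i).1, fun i => h1 (hcoef i).2, CjF_refl d p q⟩
  | cons t T ih =>
    intro F hF p q hco hmax hcoef hmul
    have hd1 : 1 ≤ d := by omega
    have hp : p.natDegree ≤ d := hmax ▸ le_max_left _ _
    have hq : q.natDegree ≤ d := hmax ▸ le_max_right _ _
    by_cases htF : t ∈ F
    · have h1 : Subfield.closure ((F : Set Om) ∪ {x | x ∈ t :: T}) ≤
          Subfield.closure ((F : Set Om) ∪ {x | x ∈ T}) := by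
        rw [Subfield.closure_le]
        rintro x (hx | hx)
        · exact Subfield.subset_closure (Or.inl hx)
        · rcases List.mem_cons.mp hx with rfl | hx
          · exact Subfield.subset_closure (Or.inl htF)
          · exact Subfield.subset_closure (Or.inr hx)
      exact ih F hF p q hco hmax (fun i => ⟨h1 (hcoef i).1, h1 (hcoef i).2⟩) hmul
    have h1 : Subfield.closure ((F : Set Om) ∪ {x | x ∈ t :: T}) ≤
        Subfield.closure (((nxt F t).toSubfield : Set Om) ∪ {x | x ∈ T}) := by
      rw [Subfield.closure_le]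
      rintro x (hx | hx)
      · exact Subfield.subset_closure (Or.inl (le_nxt F t hx))
      · rcases List.mem_cons.mp hx with rfl | hx
        · exact Subfield.subset_closure (Or.inl (self_nxt F x))
        · exact Subfield.subset_closure (Or.inr hx)
    rcases ih (nxt F t).toSubfield (nxt_rac F t) p q hco hmax
      (fun i => ⟨h1 (hcoef i).1, h1 (hcoef i).2⟩)
      (fun n hn lam hl => le_nxt F t (hmul n hn lam hl)) with h | ⟨u, w, hco', hmax', hu, hw, hcj⟩
    · exact Or.inl h
    have hu' : u.natDegree ≤ d := hmax' ▸ le_max_left _ _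
    have hw' : w.natDegree ≤ d := hmax' ▸ le_max_right _ _
    set M := nxt F t with hM
    obtain ⟨um, hum⟩ := exists_lift M u hu
    obtain ⟨wm, hwm⟩ := exists_lift M w hw
    haveI : IsAlgClosed F := rac_closed F hF
    haveI : IsAlgClosed M := nxt_closed F t
    haveI : CharZero F := (algebraMap F Om).charZero
    haveI : CharZero M := charZero_of_injective_algebraMap (algebraMap F M).injective
    set φ := algebraMap M Om with hφ
    have hmaxm : max um.natDegree wm.natDegree = d := by
      rw [← hmax', ← hum, ← hwm, natDegree_map_eq_of_injective φ.injective,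
        natDegree_map_eq_of_injective φ.injective]
    have hcom : IsCoprime um wm := by
      rw [← Polynomial.isCoprime_map φ, hum, hwm]
      exact hco'
    have humd : um.natDegree ≤ d := hmaxm ▸ le_max_left _ _
    have hwmd : wm.natDegree ≤ d := hmaxm ▸ le_max_right _ _
    rcases hM1 F M (⟨t, self_nxt F t⟩ : M) (by
      intro h
      apply htF
      apply hF
      exact h.algebraMap (A := Om)) (nxt_alg F t) d hd um wm hcom hmaxm (by
      intro n hn lam hl
      have h2 := IsMul_hom φ φ.injective d um wm n lam hl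
      rw [hum, hwm] at h2
      have h3 := hmul n hn (φ lam) (IsMul_conj d hd1 u w p q hu' hw' hp hq hmax' hco'
        (CjF_symm d p q u w hcj) n _ h2)
      exact ⟨⟨φ lam, h3⟩, φ.injective rfl⟩) with h | ⟨u', w', hco2, hmax2, hcj2⟩
    · left
      have h2 := Lat_hom φ d um wm h
      rw [hum, hwm] at h2
      exact Lat_conj d hd1 p q u w hp hq hu' hw' hcj h2
    · right
      refine ⟨u'.map (algebraMap F Om), w'.map (algebraMap F Om),
        (Polynomial.isCoprime_map _).mpr hco2, max_map _ u' w' d hmax2, fun i => ?_, fun i => ?_,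
        ?_⟩
      · rw [coeff_map]
        exact (u'.coeff i).2
      · rw [coeff_map]
        exact (w'.coeff i).2
      · refine CjF_trans d p q u w _ _ hcj ?_
        obtain ⟨a, b, c, e, s, hdet, hs, h⟩ := hcj2
        have hu2 : (u'.map (algebraMap F M)).natDegree ≤ d :=
          natDegree_map_le.trans (hmax2 ▸ le_max_left _ _)
        have hw2 : (w'.map (algebraMap F M)).natDegree ≤ d :=
          natDegree_map_le.trans (hmax2 ▸ le_max_right _ _)
        refine ⟨φ a, φ b, φ c, φ e, φ s, ?_, (_root_.map_ne_zero φ).mpr hs, fun Z => ?_⟩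
        · rw [← map_mul, ← map_mul, ← map_sub]
          exact (_root_.map_ne_zero φ).mpr hdet
        · have h2 := CjF_hom φ d um wm (u'.map (algebraMap F M)) (w'.map (algebraMap F M)) humd hwmd
            hu2 hw2 a b c e s h Z
          rw [hum, hwm, Polynomial.map_map, Polynomial.map_map] at h2
          exact h2

/-- **McMullen's theorem from the case of transcendence degree one** -/
theorem mcm_of_one (hM1 : MOne.{u}) {Om : Type u} [Field Om] [IsAlgClosed Om] [CharZero Om]
    (F : Subfield Om) (hF : ∀ x : Om, IsAlgebraic F x → x ∈ F) (d : ℕ) (hd : 2 ≤ d)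
    (p q : Polynomial Om) (hco : IsCoprime p q) (hmax : max p.natDegree q.natDegree = d)
    (hmul : ∀ n, 1 ≤ n → ∀ lam, IsMul d p q n lam → lam ∈ F) :
    Lat d p q ∨ ∃ u w : Polynomial Om, IsCoprime u w ∧ max u.natDegree w.natDegree = d ∧
      (∀ i, u.coeff i ∈ F) ∧ (∀ i, w.coeff i ∈ F) ∧ CjF d p q u w := by
  classical
  refine mcm_list hM1 d hd (p.coeffs ∪ q.coeffs).toList F hF p q hco hmax (fun i => ⟨?_, ?_⟩) hmul
  · by_cases h0 : p.coeff i = 0
    · rw [h0]
      exact zero_mem _
    · refine Subfield.subset_closure (Or.inr ?_)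
      show p.coeff i ∈ (p.coeffs ∪ q.coeffs).toList
      rw [Finset.mem_toList]
      exact Finset.mem_union_left _ (coeff_mem_coeffs h0)
  · by_cases h0 : q.coeff i = 0
    · rw [h0]
      exact zero_mem _
    · refine Subfield.subset_closure (Or.inr ?_)
      show q.coeff i ∈ (p.coeffs ∪ q.coeffs).toList
      rw [Finset.mem_toList]
      exact Finset.mem_union_right _ (coeff_mem_coeffs h0)

end Pool.Agent.E8helper71.MC
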