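import Pool.Agent.E8helper71.MC.Pre

/-!
# A model with a finite invariant set containing the critical values
-/

set_option autoImplicit false
set_option linter.unusedSectionVars false
set_option linter.style.haveILetI false

namespace Pool.Agent.E8helper71.MC

open Polynomial Finset
open Pool.Agent.W277.UH Pool.Agent.E8helper88.Mul
open Pool.Agent.Y676.CH Pool.Agent.Y706.CH Pool.Agent.Y195.CH

universe u v w

section
variable {K : Type u} [Field K]

/-- a fibre of the map is finite -/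
lemma fin_pre [CharZero K] (d : ℕ) (hd : 1 ≤ d) (p q : Polynomial K)
    (hmax : max p.natDegree q.natDegree = d) (hco : IsCoprime p q) (Z : K × K) (hZ : Z ≠ 0) :
    {z : Option K | wd (FH d p q (vec z)) Z = 0}.Finite := by
  classical
  have hp : p.natDegree ≤ d := hmax ▸ le_max_left _ _
  have hq : q.natDegree ≤ d := hmax ▸ le_max_right _ _
  have hw := wr_ne_zero d hd p q hmax hco
  have hne : C Z.2 * p - C Z.1 * q ≠ 0 := by
    intro h
    have h' : C Z.2 * p = C Z.1 * q := sub_eq_zero.mp h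
    have h2 : C Z.2 * wr p q = 0 := by
      have e1 : C Z.2 * wr p q = derivative (C Z.2 * p) * q - (C Z.2 * p) * derivative q := by
        unfold wr
        simp only [derivative_mul, derivative_C]
        ring
      rw [e1, h']
      simp only [derivative_mul, derivative_C]
      ring
    have h1 : C Z.1 * wr p q = 0 := by
      have e1 : C Z.1 * wr p q = derivative p * (C Z.1 * q) - p * derivative (C Z.1 * q) := by
        unfold wr
        simp only [derivative_mul, derivative_C]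
        ring
      rw [e1, ← h']
      simp only [derivative_mul, derivative_C]
      ring
    apply hZ
    exact Prod.ext (C_eq_zero.mp ((mul_eq_zero.mp h1).resolve_right hw))
      (C_eq_zero.mp ((mul_eq_zero.mp h2).resolve_right hw))
  refine Set.Finite.subset (((C Z.2 * p - C Z.1 * q).roots.toFinset.finite_toSet.image some).union
    (Set.finite_singleton none)) ?_
  intro z hz
  cases z with
  | none => exact Or.inr rfl
  | some x =>
    left
    refine ⟨x, ?_, rfl⟩
    rw [Finset.mem_coe, Multiset.mem_toFinset, mem_roots hne]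
    have hz' : wd (FH d p q (x, 1)) Z = 0 := hz
    unfold FH at hz'
    rw [hev_one d p hp, hev_one d q hq] at hz'
    unfold wd at hz'
    rw [IsRoot, eval_sub, eval_mul, eval_mul, eval_C, eval_C]
    linear_combination hz'

lemma exists_vec (Z : K × K) (hZ : Z ≠ 0) : ∃ z : Option K, wd (vec z) Z = 0 ∧ wd Z (vec z) = 0 := by
  by_cases h2 : Z.2 = 0
  · refine ⟨none, ?_, ?_⟩
    · show wd ((1, 0) : K × K) Z = 0
      unfold wd
      simp [h2]
    · show wd Z ((1, 0) : K × K) = 0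
      unfold wd
      simp [h2]
  · refine ⟨some (Z.1 / Z.2), ?_, ?_⟩
    · show wd ((Z.1 / Z.2, 1) : K × K) Z = 0
      unfold wd
      simp only [one_mul]
      rw [div_mul_cancel₀ _ h2, sub_self]
    · show wd Z ((Z.1 / Z.2, 1) : K × K) = 0
      unfold wd
      simp only [mul_one]
      rw [mul_div_cancel₀ _ h2, sub_self]

/-- the finite union of sets with at most one element each -/
lemma bad_fin {S : Type*} (V : S → K × K) (hV : ∀ s, V s ≠ 0)
    (hinj : ∀ s s', wd (V s) (V s') = 0 → s = s') (P : Set (Option K)) (hP : P.Finite) :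
    {s : S | ∃ z ∈ P, wd (vec z) (V s) = 0}.Finite := by
  have h1 : {s : S | ∃ z ∈ P, wd (vec z) (V s) = 0} =
      ⋃ z ∈ P, {s : S | wd (vec z) (V s) = 0} := by
    ext s
    simp only [Set.mem_iUnion, exists_prop]
    rfl
  rw [h1]
  refine hP.biUnion fun z _ => ?_
  apply Set.Subsingleton.finite
  intro s hs s' hs'
  apply hinj
  exact wd_zero_trans (vec_ne z) (wd_zero_symm hs) hs'

end

theorem pcf_model' {F : Type u} {Om : Type v} [Field F] [IsAlgClosed F] [CharZero F] [Field Om]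
    [IsAlgClosed Om] [Algebra F Om] (d : ℕ) (hd : 2 ≤ d) (p q : Polynomial Om)
    (hco : IsCoprime p q) (hmax : max p.natDegree q.natDegree = d)
    (hcrit : ∀ Z : Om × Om, Z ≠ 0 → WH d p q Z = 0 →
      ∃ m n, m < n ∧ wd ((FH d p q)^[m] Z) ((FH d p q)^[n] Z) = 0) :
    ∃ (u w : Polynomial Om) (A : Finset Om) (s : F), CjF d p q u w ∧ IsCoprime u w ∧
      u.natDegree ≤ d ∧ w.natDegree = d ∧ (∀ a ∈ A, w.eval a ≠ 0 ∧ u.eval a / w.eval a ∈ A) ∧
      (∀ z, (wr u w).eval z = 0 → w.eval z ≠ 0 ∧ u.eval z / w.eval z ∈ A) ∧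
      (wr u w).natDegree = 2 * d - 2 ∧ 2 * d + 1 ≤ A.card ∧ 0 ∈ A ∧ 1 ∈ A ∧
      algebraMap F Om s ∈ A ∧ s ≠ 0 ∧ s ≠ 1 ∧ ∀ a ∈ A, (u - C a * w).natDegree = d := by
  classical
  haveI : CharZero Om := charZero_of_injective_algebraMap (algebraMap F Om).injective
  have hd1 : 1 ≤ d := by omega
  obtain ⟨u0, w0, hcj, hco0, hmax0, hinf⟩ := inf_pp d hd p q hmax hco
  have hp : p.natDegree ≤ d := hmax ▸ le_max_left _ _
  have hq : q.natDegree ≤ d := hmax ▸ le_max_right _ _
  have hu0 : u0.natDegree ≤ d := hmax0 ▸ le_max_left _ _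
  have hw0 : w0.natDegree ≤ d := hmax0 ▸ le_max_right _ _
  have hx1 : ∀ x : Om, ((x, 1) : Om × Om) ≠ 0 := fun x h => one_ne_zero (congrArg Prod.snd h)
  have h10 : ((1, 0) : Om × Om) ≠ 0 := fun h => one_ne_zero (congrArg Prod.fst h)
  -- critical vectors of the second map
  have hcrit0 : ∀ Z : Om × Om, Z ≠ 0 → WH d u0 w0 Z = 0 → PP d u0 w0 Z := by
    obtain ⟨a, b, c, e, s, hdet, hs, hconj⟩ := hcj
    intro Z hZ hWZ
    set Y := Ph e (-b) (-c) a Z with hY
    have hYZ : Ph a b c e Y = (a * e - b * c) • Z := Ph_adj a b c e Z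
    have hY0 : Y ≠ 0 := by
      intro h
      rw [h] at hYZ
      have h1 : Ph a b c e (0 : Om × Om) = 0 := by
        unfold Ph
        simp
      rw [h1] at hYZ
      rcases smul_eq_zero.mp hYZ.symm with h2 | h2
      · exact hdet h2
      · exact hZ h2
    have h1 := WH_conj d hd1 p q u0 w0 hp hq hu0 hw0 a b c e s hdet hconj Y hY0
    rw [hYZ, WH_smul, hWZ, mul_zero] at h1
    have h2 : WH d p q Y = 0 := (mul_eq_zero.mp h1.symm).resolve_left (pow_ne_zero _ hs)
    exact (PP_conj d p q u0 w0 a b c e s hdet hs hconj Y Z _ hdet hYZ).mpr (hcrit Y hY0 h2)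
  -- the points
  obtain ⟨X0, hX0, hX0c⟩ := hinf.exists_subset_card_eq (2 * d + 1)
  obtain ⟨x1, hx1m, x2, hx2m, x3, hx3m, h12, h13, h23⟩ := Finset.two_lt_card.mp
    (show 2 < X0.card by omega)
  set G : Finset (Om × Om) := (crv u0 w0).filter (fun c => WH d u0 w0 c = 0) ∪
    X0.image (fun x => (x, 1)) with hG
  obtain ⟨B, hGB, hB0, hBinv⟩ := exists_orb d hd1 u0 w0 hmax0 hco0 G (by
    intro Z hZ
    rw [hG, mem_union, mem_filter, mem_image] at hZ
    rcases hZ with ⟨h1, h2⟩ | ⟨x, hx, rfl⟩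
    · exact ⟨crv_ne u0 w0 Z h1, hcrit0 Z (crv_ne u0 w0 Z h1) h2⟩
    · exact ⟨hx1 x, hX0 hx⟩)
  have hXB : ∀ x ∈ X0, ((x, 1) : Om × Om) ∈ B := fun x hx => hGB (by
    rw [hG, mem_union, mem_image]
    exact Or.inr ⟨x, hx, rfl⟩)
  have hcov : ∀ V : Om × Om, V ≠ 0 → WH d u0 w0 V = 0 → ∃ Z ∈ B, wd V Z = 0 := by
    intro V hV h
    obtain ⟨c, hc, h1⟩ := crv_cover (RingHom.id Om) d hd1 u0 w0 hu0 hw0
      (wr_ne_zero d hd1 u0 w0 hmax0 hco0) (IsAlgClosed.splits _) V (by
        rw [Polynomial.map_id, Polynomial.map_id]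
        exact h)
    have h2 : vh (RingHom.id Om) c = c := rfl
    rw [h2] at h1
    refine ⟨c, hGB ?_, h1⟩
    rw [hG, mem_union, mem_filter]
    left
    refine ⟨hc, ?_⟩
    obtain ⟨t, ht⟩ := exists_smul_of_wd c V hV (wd_zero_symm h1)
    rw [ht, WH_smul, h, mul_zero]
  -- the first linear map
  have hwdx : ∀ x y : Om, wd ((x, 1) : Om × Om) (y, 1) = x - y := by
    intro x y
    unfold wd
    simp
  obtain ⟨-, -, a, b, c, e, -, hdet, -, -, -, -, -, ⟨t1, ht1, hal⟩, ⟨t2, ht2, hbe⟩,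
    ⟨t3, ht3, hga⟩⟩ := exists_norm d hd1 u0 w0 hmax0 hco0 (x1, 1) (x3, 1) (x2, 1)
    (by rw [hwdx]; exact sub_ne_zero.mpr h13) (by rw [hwdx]; exact sub_ne_zero.mpr h12.symm)
    (by rw [hwdx]; exact sub_ne_zero.mpr h23)
  -- the choice of s
  set V : {s : F // s ≠ 0 ∧ s ≠ 1} → Om × Om := fun s =>
    Ph e (-b) (-c) a (1 - algebraMap F Om s.1, 1) with hVd
  have hPV : ∀ s, Ph a b c e (V s) = (a * e - b * c) • (1 - algebraMap F Om s.1, 1) :=
    fun s => Ph_adj a b c e _
  have hV0 : ∀ s, V s ≠ 0 := by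
    intro s h
    have h1 := hPV s
    rw [h] at h1
    have h2 : Ph a b c e (0 : Om × Om) = 0 := by
      unfold Ph
      simp
    rw [h2] at h1
    rcases smul_eq_zero.mp h1.symm with h3 | h3
    · exact hdet h3
    · exact hx1 _ h3
  have hVinj : ∀ s s', wd (V s) (V s') = 0 → s = s' := by
    intro s s' h
    have h1 : wd (Ph a b c e (V s)) (Ph a b c e (V s')) = 0 := by
      rw [wd_Ph, h, mul_zero]
    rw [hPV, hPV, wd_smul_left', wd_smul_right', hwdx] at h1
    have h2 := (mul_eq_zero.mp ((mul_eq_zero.mp h1).resolve_left hdet)).resolve_left hdet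
    apply Subtype.ext
    apply (algebraMap F Om).injective
    linear_combination -h2
  obtain ⟨s, hs1, hs2, hs3⟩ : ∃ s : {s : F // s ≠ 0 ∧ s ≠ 1}, (∀ Z ∈ B, wd Z (V s) ≠ 0) ∧
      wd (FH d u0 w0 (V s)) (V s) ≠ 0 ∧ ∀ Z ∈ B, wd (FH d u0 w0 (V s)) Z ≠ 0 := by
    have hfin1 := finite_pts d hd u0 w0 hmax0 hco0 1 0 one_pos
    have hfin2 : (⋃ Z ∈ (B : Set (Om × Om)), {z : Option Om | wd (FH d u0 w0 (vec z)) Z = 0}).Finite
        := B.finite_toSet.biUnion fun Z hZ => fin_pre d hd1 u0 w0 hmax0 hco0 Z (hB0 Z hZ)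
    have hfin3 : {z : Option Om | ∃ Z ∈ B, wd (vec z) Z = 0}.Finite := by
      have h1 : {z : Option Om | ∃ Z ∈ B, wd (vec z) Z = 0} =
          ⋃ Z ∈ (B : Set (Om × Om)), {z : Option Om | wd (vec z) Z = 0} := by
        ext z
        simp only [Set.mem_iUnion, exists_prop]
        rfl
      rw [h1]
      refine B.finite_toSet.biUnion fun Z hZ => ?_
      apply Set.Subsingleton.finite
      intro z hz z' hz'
      have h2 : wd (vec z) (vec z') = 0 := wd_zero_trans (hB0 Z hZ) hz (wd_zero_symm hz')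
      cases z with
      | none =>
        cases z' with
        | none => rfl
        | some x =>
          have h3 : wd ((1, 0) : Om × Om) (x, 1) = 0 := h2
          unfold wd at h3
          simp at h3
      | some y =>
        cases z' with
        | none =>
          have h3 : wd ((y, 1) : Om × Om) (1, 0) = 0 := h2
          unfold wd at h3
          simp at h3
        | some x =>
          have h3 : wd ((y, 1) : Om × Om) (x, 1) = 0 := h2
          rw [hwdx, sub_eq_zero] at h3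
          rw [h3]
    have hfin := bad_fin V hV0 hVinj _ ((hfin1.union hfin2).union hfin3)
    haveI : Infinite {s : F // s ≠ 0 ∧ s ≠ 1} := by
      have h1 : {s : F | s ≠ 0 ∧ s ≠ 1}.Infinite := by
        have h2 : {s : F | s ≠ 0 ∧ s ≠ 1} = ({0, 1} : Set F)ᶜ := by
          ext s
          simp
        rw [h2]
        exact (Set.toFinite _).infinite_compl
      exact h1.to_subtype
    obtain ⟨s, hs⟩ := hfin.infinite_compl.nonempty
    have hs' : ∀ z : Option Om, wd (vec z) (V s) = 0 →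
        wd ((FH d u0 w0)^[1] (vec z)) ((FH d u0 w0)^[0] (vec z)) ≠ 0 ∧
        (∀ Z ∈ B, wd (FH d u0 w0 (vec z)) Z ≠ 0) ∧ ∀ Z ∈ B, wd (vec z) Z ≠ 0 := by
      intro z hz
      refine ⟨fun h => hs ⟨z, Or.inl (Or.inl h), hz⟩, fun Z hZ h => hs ⟨z, Or.inl (Or.inr ?_), hz⟩,
        fun Z hZ h => hs ⟨z, Or.inr ⟨Z, hZ, h⟩, hz⟩⟩
      simp only [Set.mem_iUnion, exists_prop]
      exact ⟨Z, hZ, h⟩
    obtain ⟨z, hz1, hz2⟩ := exists_vec (V s) (hV0 s)
    obtain ⟨g1, g2, g3⟩ := hs' z hz1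
    refine ⟨s, fun Z hZ h => ?_, fun h => ?_, fun Z hZ h => ?_⟩
    · exact g3 Z hZ (wd_zero_trans (hV0 s) hz1 (wd_zero_symm h))
    · apply g1
      show wd (FH d u0 w0 (vec z)) (vec z) = 0
      have h1 : wd (FH d u0 w0 (vec z)) (FH d u0 w0 (V s)) = 0 := wd_F (hV0 s) hz1
      exact wd_zero_trans (hV0 s) (wd_zero_trans (FH_nz d hd1 u0 w0 hmax0 hco0 _ (hV0 s)) h1 h) hz2
    · apply g2 Z hZ
      have h1 : wd (FH d u0 w0 (vec z)) (FH d u0 w0 (V s)) = 0 := wd_F (hV0 s) hz1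
      exact wd_zero_trans (FH_nz d hd1 u0 w0 hmax0 hco0 _ (hV0 s)) h1 h
  set σ : Om := algebraMap F Om s.1 with hσ
  have hσ0 : σ ≠ 0 := (_root_.map_ne_zero _).mpr s.2.1
  have hσ1 : σ - 1 ≠ 0 := by
    rw [sub_ne_zero, hσ, ← map_one (algebraMap F Om)]
    exact fun h => s.2.2 ((algebraMap F Om).injective h)
  -- the linear map
  set a' := σ * a + 0 * c with ha'
  set b' := σ * b + 0 * e with hb'
  set c' := 1 * a + (σ - 1) * c with hc'
  set e' := 1 * b + (σ - 1) * e with he'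
  have hT : ∀ Z, Ph a' b' c' e' Z = Ph σ 0 1 (σ - 1) (Ph a b c e Z) := fun Z =>
    (Ph_comp a b c e σ 0 1 (σ - 1) Z).symm
  have hdet' : a' * e' - b' * c' ≠ 0 := by
    have : a' * e' - b' * c' = σ * (σ - 1) * (a * e - b * c) := by
      rw [ha', hb', hc', he']
      ring
    rw [this]
    exact mul_ne_zero (mul_ne_zero hσ0 hσ1) hdet
  obtain ⟨u, w, hconj, hco', hmax'⟩ := conj_exists d hd1 u0 w0 hmax0 hco0 a' b' c' e' hdet'
  set D := a' * e' - b' * c' with hD
  have hDd : D ^ d ≠ 0 := pow_ne_zero _ hdet'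
  have hu : u.natDegree ≤ d := hmax' ▸ le_max_left _ _
  have hw : w.natDegree ≤ d := hmax' ▸ le_max_right _ _
  set T := Ph a' b' c' e' with hTd
  have hTV : T (V s) = ((a * e - b * c) * (σ * (1 - σ)), 0) := by
    rw [hT, hPV]
    unfold Ph
    refine Prod.ext ?_ ?_
    · simp only [Prod.smul_fst, Prod.smul_snd, smul_eq_mul]
      ring
    · simp only [Prod.smul_fst, Prod.smul_snd, smul_eq_mul]
      ring
  have hτ : (a * e - b * c) * (σ * (1 - σ)) ≠ 0 :=
    mul_ne_zero hdet (mul_ne_zero hσ0 (by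
      intro h
      apply hσ1
      linear_combination -h))
  have hTwd : ∀ Z W, wd (T Z) (T W) = D * wd Z W := fun Z W => wd_Ph a' b' c' e' Z W
  have hT0 : ∀ Z : Om × Om, Z ≠ 0 → T Z ≠ 0 := fun Z hZ => Ph_ne a' b' c' e' hdet' Z hZ
  have hT2 : ∀ Z, (T Z).2 = 0 → wd Z (V s) = 0 := by
    intro Z h
    have h1 := hTwd Z (V s)
    rw [hTV] at h1
    unfold wd at h1 ⊢
    simp only [h, zero_mul, mul_zero, sub_zero] at h1
    exact (mul_eq_zero.mp h1.symm).resolve_left hdet'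
  have hBT : ∀ Z ∈ B, (T Z).2 ≠ 0 := fun Z hZ h => hs1 Z hZ (hT2 Z h)
  have hFH1 : ∀ x : Om, FH d u w (x, 1) = (u.eval x, w.eval x) := by
    intro x
    unfold FH
    rw [hev_one d u hu, hev_one d w hw]
  have hFH0 : FH d u w (1, 0) = (u.coeff d, w.coeff d) := by
    unfold FH
    rw [hev_zero, hev_zero]
    simp
  set A : Finset Om := B.image fun Z => (T Z).1 / (T Z).2 with hA
  have hmemA : ∀ Z ∈ B, (T Z).1 / (T Z).2 ∈ A := fun Z hZ => mem_image.mpr ⟨Z, hZ, rfl⟩
  -- a point proportional to a vector of the image of `B`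
  have hptA : ∀ x : Om, ∀ Z ∈ B, wd ((x, 1) : Om × Om) (T Z) = 0 → x = (T Z).1 / (T Z).2 := by
    intro x Z hZ h
    rw [eq_div_iff (hBT Z hZ)]
    unfold wd at h
    linear_combination h
  have hvecA : ∀ Z ∈ B, wd (T Z) (((T Z).1 / (T Z).2, 1) : Om × Om) = 0 := by
    intro Z hZ
    unfold wd
    simp only [mul_one]
    rw [mul_div_cancel₀ _ (hBT Z hZ), sub_self]
  have hinvA : ∀ x ∈ A, w.eval x ≠ 0 ∧ u.eval x / w.eval x ∈ A := by
    intro x hx
    rw [hA, mem_image] at hx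
    obtain ⟨Z, hZ, rfl⟩ := hx
    obtain ⟨Z', hZ', h1⟩ := hBinv Z hZ
    set x := (T Z).1 / (T Z).2 with hxd
    have h2 : wd (FH d u w (x, 1)) (FH d u w (T Z)) = 0 :=
      wd_F (hT0 Z (hB0 Z hZ)) (wd_zero_symm (hvecA Z hZ))
    have h3 : wd (FH d u w (T Z)) (T Z') = 0 := by
      rw [hTd] at hTwd ⊢
      rw [hconj, wd_smul_left', hTwd, h1, mul_zero, mul_zero]
    have h4 : wd (FH d u w (x, 1)) (T Z') = 0 :=
      wd_zero_trans (FH_nz d hd1 u w hmax' hco' _ (hT0 Z (hB0 Z hZ))) h2 h3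
    have h5 := FH_nz d hd1 u w hmax' hco' (x, 1) (hx1 x)
    rw [hFH1] at h4 h5
    have h6 : w.eval x ≠ 0 := by
      intro h6
      unfold wd at h4
      simp only [h6, zero_mul, sub_zero] at h4
      apply h5
      rw [(mul_eq_zero.mp h4).resolve_right (hBT Z' hZ'), h6]
      rfl
    refine ⟨h6, ?_⟩
    have h7 : u.eval x / w.eval x = (T Z').1 / (T Z').2 := by
      rw [div_eq_div_iff h6 (hBT Z' hZ')]
      unfold wd at h4
      linear_combination h4
    rw [h7]
    exact hmemA Z' hZ'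
  have hTsurj : ∀ W : Om × Om, W ≠ 0 → ∃ Y, Y ≠ 0 ∧ T Y = D • W := by
    intro W hW
    refine ⟨Ph e' (-b') (-c') a' W, ?_, Ph_adj a' b' c' e' W⟩
    intro h
    have h1 : T (Ph e' (-b') (-c') a' W) = D • W := Ph_adj a' b' c' e' W
    rw [h] at h1
    have h2 : T (0 : Om × Om) = 0 := by
      rw [hTd]
      unfold Ph
      simp
    rw [h2] at h1
    rcases smul_eq_zero.mp h1.symm with h3 | h3
    · exact hdet' h3
    · exact hW h3
  have hWHz : ∀ W : Om × Om, W ≠ 0 → WH d u w W = 0 → ∃ Z ∈ B, wd W (T Z) = 0 := by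
    intro W hW h
    obtain ⟨Y, hY0, hY⟩ := hTsurj W hW
    have h1 := WH_conj d hd1 u0 w0 u w hu0 hw0 hu hw a' b' c' e' (D ^ d) hdet' hconj Y hY0
    rw [← hTd, hY, WH_smul, h, mul_zero] at h1
    have h2 : WH d u0 w0 Y = 0 := (mul_eq_zero.mp h1.symm).resolve_left (pow_ne_zero _ hDd)
    obtain ⟨Z, hZ, h3⟩ := hcov Y hY0 h2
    refine ⟨Z, hZ, ?_⟩
    have h4 : wd (T Y) (T Z) = 0 := by rw [hTwd, h3, mul_zero]
    rw [hY, wd_smul_left'] at h4
    exact (mul_eq_zero.mp h4).resolve_left hdet'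
  refine ⟨u, w, A, s.1, ?_, hco', hu, ?_, hinvA, ?_, ?_, ?_, ?_, ?_, ?_, s.2.1, s.2.2, ?_⟩
  · exact CjF_trans d p q u0 w0 u w hcj ⟨a', b', c', e', D ^ d, hdet', hDd, hconj⟩
  · apply le_antisymm hw
    apply le_natDegree_of_ne_zero
    intro h
    apply hs2
    have h1 : wd (FH d u w (1, 0)) (1, 0) = 0 := by
      rw [hFH0, h]
      unfold wd
      simp
    have h2 : FH d u w (T (V s)) = D ^ d • T (FH d u0 w0 (V s)) := hconj (V s)
    have h3 : T (V s) = ((a * e - b * c) * (σ * (1 - σ))) • ((1, 0) : Om × Om) := by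
      rw [hTV]
      refine Prod.ext ?_ ?_ <;> simp
    have h4 : wd (T (FH d u0 w0 (V s))) (T (V s)) = 0 := by
      have h5 : wd (FH d u w (T (V s))) (T (V s)) = 0 := by
        rw [h3, FH_smul, wd_smul_left', wd_smul_right', h1, mul_zero, mul_zero]
      rw [h2, wd_smul_left'] at h5
      exact (mul_eq_zero.mp h5).resolve_left hDd
    rw [hTwd] at h4
    exact (mul_eq_zero.mp h4).resolve_left hdet'
  · intro z hz
    have h1 : WH d u w (z, 1) = 0 := by
      unfold WH
      rw [hev_one _ _ (wr_deg d hd1 u w hu hw)]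
      exact hz
    obtain ⟨Z, hZ, h2⟩ := hWHz (z, 1) (hx1 z) h1
    have h3 := hptA z Z hZ h2
    rw [h3]
    exact hinvA _ (hmemA Z hZ)
  · apply le_antisymm (wr_deg d hd1 u w hu hw)
    apply le_natDegree_of_ne_zero
    intro h
    have h1 : WH d u w (1, 0) = 0 := by
      unfold WH
      rw [hev_zero, h]
      simp
    obtain ⟨Z, hZ, h2⟩ := hWHz (1, 0) h10 h1
    unfold wd at h2
    simp only [one_mul, zero_mul, sub_zero] at h2
    exact hBT Z hZ h2
  · rw [← hX0c]
    apply Finset.card_le_card_of_injOn (fun x => (T (x, 1)).1 / (T (x, 1)).2)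
    · intro x hx
      exact hmemA _ (hXB x hx)
    · intro x hx y hy hxy
      simp only at hxy
      rw [div_eq_div_iff (hBT _ (hXB x hx)) (hBT _ (hXB y hy))] at hxy
      have h1 : wd (T (x, 1)) (T (y, 1)) = 0 := by
        unfold wd
        linear_combination hxy
      rw [hTwd, hwdx] at h1
      exact sub_eq_zero.mp ((mul_eq_zero.mp h1).resolve_left hdet')
  · have h1 := hmemA _ (hXB x1 hx1m)
    have h2 : T (x1, 1) = (0, t1 * (σ - 1)) := by
      rw [hT, hal]
      unfold Ph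
      refine Prod.ext ?_ ?_
      · simp
      · simp
        ring
    rw [h2] at h1
    simpa using h1
  · have h1 := hmemA _ (hXB x2 hx2m)
    have h2 : T (x2, 1) = (t3 * σ, t3 * σ) := by
      rw [hT, hga]
      unfold Ph
      refine Prod.ext ?_ ?_
      · simp
        ring
      · simp
        ring
    rw [h2] at h1
    simpa [div_self (mul_ne_zero ht3 hσ0)] using h1
  · have h1 := hmemA _ (hXB x3 hx3m)
    have h2 : T (x3, 1) = (t2 * σ, t2) := by
      rw [hT, hbe]
      unfold Ph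
      refine Prod.ext ?_ ?_
      · simp
        ring
      · simp
    rw [h2] at h1
    simpa [mul_div_cancel_left₀ _ ht2] using h1
  · intro x hx
    rw [hA, mem_image] at hx
    obtain ⟨Z, hZ, rfl⟩ := hx
    set x := (T Z).1 / (T Z).2 with hxd
    apply le_antisymm
    · exact (natDegree_sub_le _ _).trans (max_le hu ((natDegree_C_mul_le _ _).trans hw))
    apply le_natDegree_of_ne_zero
    rw [coeff_sub, coeff_C_mul]
    intro h
    apply hs3 Z hZ
    have h1 : wd (FH d u w (1, 0)) (x, 1) = 0 := by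
      rw [hFH0]
      unfold wd
      simp only [mul_one]
      linear_combination h
    have h2 : FH d u w (T (V s)) = D ^ d • T (FH d u0 w0 (V s)) := hconj (V s)
    have h3 : T (V s) = ((a * e - b * c) * (σ * (1 - σ))) • ((1, 0) : Om × Om) := by
      rw [hTV]
      refine Prod.ext ?_ ?_ <;> simp
    have h4 : wd (T (FH d u0 w0 (V s))) (x, 1) = 0 := by
      have h5 : wd (FH d u w (T (V s))) (x, 1) = 0 := by
        rw [h3, FH_smul, wd_smul_left', h1, mul_zero]
      rw [h2, wd_smul_left'] at h5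
      exact (mul_eq_zero.mp h5).resolve_left hDd
    have h5 : wd (T (FH d u0 w0 (V s))) (T Z) = 0 :=
      wd_zero_trans (hx1 x) h4 (wd_zero_symm (hvecA Z hZ))
    rw [hTwd] at h5
    exact (mul_eq_zero.mp h5).resolve_left hdet'

/-- **a model with a finite invariant set** -/
theorem pcf_model {F : Type u} {Om : Type v} [Field F] [IsAlgClosed F] [CharZero F] [Field Om]
    [IsAlgClosed Om] [Algebra F Om] (d : ℕ) (hd : 2 ≤ d) (p q : Polynomial Om)
    (hco : IsCoprime p q) (hmax : max p.natDegree q.natDegree = d)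
    (hcrit : ∀ Z : Om × Om, Z ≠ 0 → WH d p q Z = 0 →
      ∃ m n, m < n ∧ wd ((FH d p q)^[m] Z) ((FH d p q)^[n] Z) = 0) :
    ∃ (u w : Polynomial Om) (A : Finset Om) (s : F), CjF d p q u w ∧ IsCoprime u w ∧
      u.natDegree ≤ d ∧ w.natDegree = d ∧ (∀ a ∈ A, w.eval a ≠ 0 ∧ u.eval a / w.eval a ∈ A) ∧
      (∀ z, (wr u w).eval z = 0 → w.eval z ≠ 0 ∧ u.eval z / w.eval z ∈ A) ∧
      (wr u w).natDegree = 2 * d - 2 ∧ 2 * d + 1 ≤ A.card ∧ 0 ∈ A ∧ 1 ∈ A ∧
      algebraMap F Om s ∈ A ∧ s ≠ 0 ∧ s ≠ 1 := by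
  obtain ⟨u, w, A, s, h1, h2, h3, h4, h5, h6, h7, h8, h9, h10, h11, h12, h13, -⟩ :=
    pcf_model' (F := F) d hd p q hco hmax hcrit
  exact ⟨u, w, A, s, h1, h2, h3, h4, h5, h6, h7, h8, h9, h10, h11, h12, h13⟩

end Pool.Agent.E8helper71.MC
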