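import Pool.Agent.E8helper88.Mul.Norm
import Pool.Agent.W277.UH.G1
import Pool.Agent.Y784.CH.A

/-!
# Cycles of critical vectors, zeros of the Wronskian form, Bezout relations
-/

set_option autoImplicit false
set_option linter.unusedSectionVars false

namespace Pool.Agent.E8helper71.MC

open Polynomial Finset
open Pool.Agent.W277.UH Pool.Agent.E8helper88.Mul

section
variable {K : Type*} [Field K]

lemma wd_zero_trans {X Y Z : K × K} (hY : Y ≠ 0) (h1 : wd X Y = 0) (h2 : wd Y Z = 0) :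
    wd X Z = 0 := by
  obtain ⟨t, rfl⟩ := exists_smul_of_wd X Y hY h1
  rw [wd_smul_left', h2, mul_zero]

lemma wd_zero_symm {X Y : K × K} (h : wd X Y = 0) : wd Y X = 0 := by
  unfold wd at h ⊢
  linear_combination -h

lemma wd_iter (d : ℕ) (p q : Polynomial K) (n : ℕ) {X Y : K × K} (hY : Y ≠ 0) (h : wd X Y = 0) :
    wd ((FH d p q)^[n] X) ((FH d p q)^[n] Y) = 0 := by
  obtain ⟨t, rfl⟩ := exists_smul_of_wd X Y hY h
  rw [FH_iter_smul, wd_smul_left', wd_self', mul_zero]

/-- a return time -/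
noncomputable def ret (d : ℕ) (p q : Polynomial K) (c : K × K) : ℕ :=
  open Classical in
  if h : ∃ n, 1 ≤ n ∧ wd ((FH d p q)^[n] c) c = 0 then Classical.choose h else 0

/-- the cycles of the periodic vectors in a finite set -/
noncomputable def cyc (d : ℕ) (p q : Polynomial K) (C : Finset (K × K)) : Finset (K × K) :=
  open Classical in
  C.biUnion fun c => (range (ret d p q c)).image fun i => (FH d p q)^[i] c

lemma ret_spec (d : ℕ) (p q : Polynomial K) (c : K × K)
    (h : ∃ n, 1 ≤ n ∧ wd ((FH d p q)^[n] c) c = 0) :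
    1 ≤ ret d p q c ∧ wd ((FH d p q)^[ret d p q c] c) c = 0 := by
  classical
  unfold ret
  rw [dif_pos h]
  exact Classical.choose_spec h

lemma ret_pos (d : ℕ) (p q : Polynomial K) (c : K × K) (h : 0 < ret d p q c) :
    ∃ n, 1 ≤ n ∧ wd ((FH d p q)^[n] c) c = 0 := by
  classical
  by_contra hcon
  unfold ret at h
  rw [dif_neg hcon] at h
  exact lt_irrefl _ h

lemma cyc_mem (d : ℕ) (hd : 1 ≤ d) (p q : Polynomial K) (hmax : max p.natDegree q.natDegree = d)
    (hco : IsCoprime p q) (C : Finset (K × K)) (hC : ∀ c ∈ C, c ≠ 0) (e : K × K)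
    (he : e ∈ cyc d p q C) : e ≠ 0 ∧ ∃ n, 1 ≤ n ∧ wd ((FH d p q)^[n] e) e = 0 := by
  classical
  unfold cyc at he
  rw [mem_biUnion] at he
  obtain ⟨c, hc, he⟩ := he
  rw [mem_image] at he
  obtain ⟨i, hi, rfl⟩ := he
  rw [mem_range] at hi
  refine ⟨FH_iter_nz d hd p q hmax hco i c (hC c hc), ret d p q c, by omega, ?_⟩
  obtain ⟨h1, h2⟩ := ret_spec d p q c (ret_pos d p q c (by omega))
  rw [← Function.iterate_add_apply, add_comm, Function.iterate_add_apply]
  exact wd_iter d p q i (hC c hc) h2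

lemma cyc_cover (d : ℕ) (hd : 1 ≤ d) (p q : Polynomial K) (hmax : max p.natDegree q.natDegree = d)
    (hco : IsCoprime p q) (C : Finset (K × K)) (hC : ∀ c ∈ C, c ≠ 0) (c : K × K) (hc : c ∈ C)
    (hper : ∃ n, 1 ≤ n ∧ wd ((FH d p q)^[n] c) c = 0) (m : ℕ) :
    ∃ e ∈ cyc d p q C, wd ((FH d p q)^[m] c) e = 0 := by
  classical
  obtain ⟨h1, h2⟩ := ret_spec d p q c hper
  have key : ∃ i < ret d p q c, wd ((FH d p q)^[m] c) ((FH d p q)^[i] c) = 0 := by
    induction m with
    | zero => exact ⟨0, by omega, wd_self' _⟩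
    | succ m ih =>
      obtain ⟨i, hi, h3⟩ := ih
      have hnz := FH_iter_nz d hd p q hmax hco i c (hC c hc)
      have h4 : wd ((FH d p q)^[m + 1] c) ((FH d p q)^[i + 1] c) = 0 := by
        rw [Function.iterate_succ_apply', Function.iterate_succ_apply']
        exact wd_iter d p q 1 hnz h3
      by_cases h5 : i + 1 < ret d p q c
      · exact ⟨i + 1, h5, h4⟩
      · have h6 : i + 1 = ret d p q c := by omega
        refine ⟨0, by omega, ?_⟩
        rw [h6] at h4
        exact wd_zero_trans (FH_iter_nz d hd p q hmax hco _ c (hC c hc)) h4 h2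
  obtain ⟨i, hi, h3⟩ := key
  refine ⟨(FH d p q)^[i] c, ?_, h3⟩
  unfold cyc
  rw [mem_biUnion]
  exact ⟨c, hc, mem_image.2 ⟨i, mem_range.2 hi, rfl⟩⟩

/-- the Wronskian of a nonconstant map is not zero -/
lemma wr_ne_zero [CharZero K] (d : ℕ) (hd : 1 ≤ d) (p q : Polynomial K)
    (hmax : max p.natDegree q.natDegree = d) (hco : IsCoprime p q) : wr p q ≠ 0 := by
  intro h
  have h1 : wronskian p q = 0 := by
    unfold wr at h
    unfold wronskian
    linear_combination -h
  obtain ⟨h2, h3⟩ := hco.wronskian_eq_zero_iff.mp h1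
  have h4 := Polynomial.derivative_eq_zero.mp h2
  have h5 := Polynomial.derivative_eq_zero.mp h3
  rw [h4, h5] at hmax
  simp at hmax
  omega

lemma wr_deg [CharZero K] (d : ℕ) (hd : 1 ≤ d) (p q : Polynomial K) (hp : p.natDegree ≤ d)
    (hq : q.natDegree ≤ d) : (wr p q).natDegree ≤ 2 * d - 2 := by
  have hd0 : (d : K) ≠ 0 := Nat.cast_ne_zero.mpr (by omega)
  have h1 : C (d : K) * wr p q = derivative p * tl' d q - tl' d p * derivative q := by
    unfold tl' wr
    rw [map_natCast]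
    ring
  rw [← natDegree_C_mul hd0, h1]
  have hdp : (derivative p).natDegree ≤ d - 1 := (natDegree_derivative_le p).trans (by omega)
  have hdq : (derivative q).natDegree ≤ d - 1 := (natDegree_derivative_le q).trans (by omega)
  refine (natDegree_sub_le _ _).trans (max_le ?_ ?_)
  · exact (natDegree_mul_le_of_le hdp (tl'_deg d hd q hq)).trans (by omega)
  · exact (natDegree_mul_le_of_le (tl'_deg d hd p hp) hdq).trans (by omega)

/-- the critical vectors -/
noncomputable def crv (p q : Polynomial K) : Finset (K × K) :=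
  open Classical in
  insert (1, 0) ((wr p q).roots.toFinset.image fun r => (r, 1))

lemma crv_ne (p q : Polynomial K) (c : K × K) (hc : c ∈ crv p q) : c ≠ 0 := by
  classical
  unfold crv at hc
  rw [mem_insert, mem_image] at hc
  rcases hc with rfl | ⟨r, _, rfl⟩
  · exact fun h => one_ne_zero (congrArg Prod.fst h)
  · exact fun h => one_ne_zero (congrArg Prod.snd h)

lemma crv_cover [CharZero K] {Ω : Type*} [Field Ω] (φ : K →+* Ω) (d : ℕ) (hd : 1 ≤ d)
    (p q : Polynomial K)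
    (hp : p.natDegree ≤ d) (hq : q.natDegree ≤ d) (hw : wr p q ≠ 0) (hsp : (wr p q).Splits)
    (V : Ω × Ω) (hV : WH d (p.map φ) (q.map φ) V = 0) : ∃ c ∈ crv p q, wd V (vh φ c) = 0 := by
  classical
  by_cases h2 : V.2 = 0
  · refine ⟨(1, 0), by simp [crv], ?_⟩
    unfold wd vh
    simp [h2]
  · unfold WH at hV
    rw [wr_map] at hV
    have hdeg : ((wr p q).map φ).natDegree ≤ 2 * d - 2 := by
      exact natDegree_map_le.trans (wr_deg d hd p q hp hq)
    rw [hev_eval _ _ hdeg V h2] at hV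
    have h3 := (mul_eq_zero.mp hV).resolve_left (pow_ne_zero _ h2)
    obtain ⟨r, hr⟩ : ∃ r, φ r = V.1 / V.2 := hsp.mem_range_of_isRoot hw h3
    refine ⟨(r, 1), ?_, ?_⟩
    · unfold crv
      rw [mem_insert, mem_image]
      right
      refine ⟨r, ?_, rfl⟩
      rw [Multiset.mem_toFinset, mem_roots hw]
      apply φ.injective
      rw [← hr, eval_map_apply] at h3
      rw [h3, map_zero]
    · unfold wd vh
      simp only [map_one, mul_one, hr]
      field_simp
      ring

/-- a periodic vector whose orbit contains a critical vector -/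
lemma cyc_crit [CharZero K] {Ω : Type*} [Field Ω] (φ : K →+* Ω) (d : ℕ) (hd : 1 ≤ d)
    (p q : Polynomial K) (hmax : max p.natDegree q.natDegree = d) (hco : IsCoprime p q)
    (hsp : (wr p q).Splits) (Y : Ω × Ω) (hY : Y ≠ 0) (N j : ℕ) (hj : j < N)
    (hper : wd ((FH d (p.map φ) (q.map φ))^[N] Y) Y = 0)
    (hcr : WH d (p.map φ) (q.map φ) ((FH d (p.map φ) (q.map φ))^[j] Y) = 0) :
    ∃ e ∈ cyc d p q (crv p q), wd Y (vh φ e) = 0 := by
  have hp : p.natDegree ≤ d := hmax ▸ le_max_left _ _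
  have hq : q.natDegree ≤ d := hmax ▸ le_max_right _ _
  have hmax' := max_map φ p q d hmax
  have hco' : IsCoprime (p.map φ) (q.map φ) := (Polynomial.isCoprime_map φ).mpr hco
  obtain ⟨c, hc, h1⟩ := crv_cover φ d hd p q hp hq (wr_ne_zero d hd p q hmax hco) hsp _ hcr
  have hc0 := crv_ne p q c hc
  have hvc : vh φ c ≠ 0 := by
    intro h
    apply hc0
    have e1 := congrArg Prod.fst h
    have e2 := congrArg Prod.snd h
    simp only [vh, Prod.fst_zero, Prod.snd_zero, map_eq_zero] at e1 e2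
    exact Prod.ext e1 e2
  set F := FH d (p.map φ) (q.map φ) with hF
  have hnz : ∀ n (Z : Ω × Ω), Z ≠ 0 → F^[n] Z ≠ 0 := fun n Z hZ =>
    FH_iter_nz d hd _ _ hmax' hco' n Z hZ
  -- c is periodic
  have h2 : wd (F^[N] (F^[j] Y)) (F^[j] Y) = 0 := by
    rw [← Function.iterate_add_apply, add_comm, Function.iterate_add_apply]
    exact wd_iter d _ _ j hY hper
  have h3 : wd (F^[N] (vh φ c)) (vh φ c) = 0 := by
    have h4 : wd (F^[N] (vh φ c)) (F^[N] (F^[j] Y)) = 0 :=
      wd_iter d _ _ N (hnz j Y hY) (wd_zero_symm h1)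
    exact wd_zero_trans (hnz j Y hY) (wd_zero_trans (hnz N _ (hnz j Y hY)) h4 h2) h1
  have hcp : ∃ n, 1 ≤ n ∧ wd ((FH d p q)^[n] c) c = 0 := by
    refine ⟨N, by omega, ?_⟩
    rw [hF, FH_iter_hom] at h3
    have h5 : wd (vh φ ((FH d p q)^[N] c)) (vh φ c) = φ (wd ((FH d p q)^[N] c) c) := by
      unfold wd vh
      simp
    rw [h5] at h3
    exact (map_eq_zero φ).mp h3
  obtain ⟨e, he, h6⟩ := cyc_cover d hd p q hmax hco (crv p q) (crv_ne p q) c hc hcp (N - j)
  refine ⟨e, he, ?_⟩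
  have h7 : wd (F^[N - j] (F^[j] Y)) (F^[N - j] (vh φ c)) = 0 := wd_iter d _ _ (N - j) hvc h1
  rw [← Function.iterate_add_apply, Nat.sub_add_cancel hj.le] at h7
  have h8 : wd (F^[N - j] (vh φ c)) (vh φ e) = 0 := by
    rw [hF, FH_iter_hom]
    have h5 : wd (vh φ ((FH d p q)^[N - j] c)) (vh φ e) = φ (wd ((FH d p q)^[N - j] c) e) := by
      unfold wd vh
      simp
    rw [h5, h6, map_zero]
  exact wd_zero_trans (hnz N Y hY) (wd_zero_symm hper) (wd_zero_trans (hnz _ _ hvc) h7 h8)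

/-- Bezout relations -/
lemma exists_bez (d : ℕ) (hd : 1 ≤ d) (p q : Polynomial K)
    (hmax : max p.natDegree q.natDegree = d) (hco : IsCoprime p q) :
    ∃ R : K, R ≠ 0 ∧ ∀ j < d + d, ∃ u w : Polynomial K, u.natDegree ≤ d - 1 ∧ w.natDegree ≤ d - 1 ∧
      u * p + w * q = C R * X ^ j := by
  have hp : p.natDegree ≤ d := hmax ▸ le_max_left _ _
  have hq : q.natDegree ≤ d := hmax ▸ le_max_right _ _
  have hdeg : ∀ u : Polynomial K, u.degree < d → u.natDegree ≤ d - 1 := by
    intro u hu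
    by_cases h0 : u = 0
    · rw [h0, natDegree_zero]
      omega
    · have := (natDegree_lt_iff_degree_lt h0).mpr hu
      omega
  rcases max_choice p.natDegree q.natDegree with h | h
  · have h1 : p.natDegree = d := h.symm.trans hmax
    refine ⟨resultant p q d d, res_ne d q p hq h1 hd hco.symm, fun j hj => ?_⟩
    obtain ⟨u, w, hu, hw, h2⟩ := Pool.Agent.Y784.CH.bez d p q hp hq j hj
    exact ⟨u, w, hdeg u hu, hdeg w hw, by rw [← h2]; ring⟩
  · have h1 : q.natDegree = d := h.symm.trans hmax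
    refine ⟨resultant q p d d, res_ne d p q hp h1 hd hco, fun j hj => ?_⟩
    obtain ⟨u, w, hu, hw, h2⟩ := Pool.Agent.Y784.CH.bez d q p hq hp j hj
    exact ⟨w, u, hdeg w hw, hdeg u hu, by rw [← h2]; ring⟩

lemma hev_add' (a : ℕ) (A B : Polynomial K) (Z : K × K) :
    hev a (A + B) Z = hev a A Z + hev a B Z := by
  unfold hev
  rw [← Finset.sum_add_distrib]
  apply Finset.sum_congr rfl
  intro i _
  rw [coeff_add]
  ring

lemma hev_CX (a j : ℕ) (hj : j ≤ a) (R : K) (Z : K × K) :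
    hev a (C R * X ^ j) Z = R * (Z.1 ^ j * Z.2 ^ (a - j)) := by
  unfold hev
  rw [Finset.sum_eq_single j]
  · rw [coeff_C_mul, coeff_X_pow, if_pos rfl]
    ring
  · intro i _ hi
    rw [coeff_C_mul, coeff_X_pow, if_neg hi]
    ring
  · intro h
    exact absurd (mem_range.2 (by omega)) h

/-- the homogeneous Bezout relation -/
lemma hev_bez (d : ℕ) (hd : 1 ≤ d) (p q u w : Polynomial K) (hp : p.natDegree ≤ d)
    (hq : q.natDegree ≤ d) (hu : u.natDegree ≤ d - 1) (hw : w.natDegree ≤ d - 1) (R : K) (j : ℕ)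
    (hj : j < d + d) (h : u * p + w * q = C R * X ^ j) (Z : K × K) :
    hev (d - 1) u Z * hev d p Z + hev (d - 1) w Z * hev d q Z =
      R * (Z.1 ^ j * Z.2 ^ (2 * d - 1 - j)) := by
  rw [← hev_mulF _ _ _ _ hu hp, ← hev_mulF _ _ _ _ hw hq, ← hev_add', h, hev_CX _ _ (by omega)]
  have : d - 1 + d - j = 2 * d - 1 - j := by omega
  rw [this]

end

end Pool.Agent.E8helper71.MC
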