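import Pool.Agent.E8helper71.MC.Glo
import Pool.Agent.E8helper88.Mul.Iso
import Pool.Agent.W277.UB.Fin

/-!
# Constant multipliers and a critical point with infinite orbit: the map is defined over the
constants
-/

set_option autoImplicit false
set_option linter.unusedSectionVars false
set_option linter.style.haveILetI false

namespace Pool.Agent.E8helper71.MC

open Polynomial Finset
open Pool.Agent.W277.UB Pool.Agent.W277.UG Pool.Agent.W277.UH Pool.Agent.E8helper88.Mul
open Pool.Agent.Y676.CH

universe u v w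

section
variable {F : Type u} {Om : Type v} [Field F] [Field Om] [Algebra F Om]

/-- elements of the adjoined field -/
lemma adj_range (M : IntermediateField F Om) (t' : M) (y : Om)
    (hy : y ∈ IntermediateField.adjoin F {(t' : Om)}) :
    ∃ r : IntermediateField.adjoin F {t'}, ((r : M) : Om) = y := by
  have h1 : (IntermediateField.adjoin F {t'}).map M.val =
      IntermediateField.adjoin F {(t' : Om)} := by
    rw [IntermediateField.adjoin_map, Set.image_singleton]
    rfl
  rw [← h1] at hy
  obtain ⟨x, hx, hxy⟩ := hy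
  exact ⟨⟨x, hx⟩, hxy⟩

lemma alg_sub (M : IntermediateField F Om) (t' : M)
    (hal : Algebra.IsAlgebraic (IntermediateField.adjoin F {(t' : Om)}) Om) :
    Algebra.IsAlgebraic (IntermediateField.adjoin F {t'}) M := by
  constructor
  intro z
  obtain ⟨P, hP0, hP⟩ := hal.isAlgebraic (z : Om)
  set φ : IntermediateField.adjoin F {t'} →+* Om :=
    (algebraMap M Om).comp (algebraMap (IntermediateField.adjoin F {t'}) M) with hφ
  have h1 : P.map (algebraMap (IntermediateField.adjoin F {(t' : Om)}) Om) ∈ lifts φ := by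
    rw [lifts_iff_coeff_lifts]
    intro n
    rw [coeff_map]
    obtain ⟨r, hr⟩ := adj_range M t' _ (P.coeff n).2
    exact ⟨r, hr⟩
  obtain ⟨q, hq⟩ := h1
  have hq' : q.map φ = P.map (algebraMap (IntermediateField.adjoin F {(t' : Om)}) Om) := hq
  refine ⟨q, ?_, ?_⟩
  · rintro rfl
    rw [Polynomial.map_zero] at hq'
    exact hP0 ((Polynomial.map_eq_zero _).mp hq'.symm)
  · apply (algebraMap M Om).injective
    rw [map_zero]
    have h2 : (q.map φ).eval (z : Om) = 0 := by
      rw [hq', eval_map_algebraMap]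
      exact hP
    rw [hφ, ← Polynomial.map_map] at h2
    have h3 : algebraMap M Om (aeval z q) =
        ((q.map (algebraMap (IntermediateField.adjoin F {t'}) M)).map (algebraMap M Om)).eval
          (algebraMap M Om z) := by
      rw [eval_map_apply, eval_map_algebraMap]
    rw [h3]
    exact h2

lemma alg_top (M : IntermediateField F Om) (t : Om) (ht : t ∈ M)
    (hal : Algebra.IsAlgebraic (IntermediateField.adjoin F {t}) Om) :
    Algebra.IsAlgebraic M Om := by
  constructor
  intro z
  obtain ⟨P, hP0, hP⟩ := hal.isAlgebraic z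
  have hle : IntermediateField.adjoin F {t} ≤ M :=
    IntermediateField.adjoin_simple_le_iff.mpr ht
  set φ : IntermediateField.adjoin F {t} →+* M :=
    (IntermediateField.inclusion hle).toRingHom with hφ
  refine ⟨P.map φ, ?_, ?_⟩
  · exact (Polynomial.map_ne_zero_iff φ.injective).mpr hP0
  · rw [← eval_map_algebraMap, Polynomial.map_map]
    have h1 : (algebraMap M Om).comp φ = algebraMap (IntermediateField.adjoin F {t}) Om := by
      ext x
      rfl
    rw [h1, eval_map_algebraMap]
    exact hP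

/-- a polynomial with coefficients in an intermediate field -/
lemma exists_lift (M : IntermediateField F Om) (f : Polynomial Om) (h : ∀ i, f.coeff i ∈ M) :
    ∃ g : Polynomial M, g.map (algebraMap M Om) = f := by
  have h1 : f ∈ lifts (algebraMap M Om) := by
    rw [lifts_iff_coeff_lifts]
    intro n
    exact ⟨⟨f.coeff n, h n⟩, rfl⟩
  obtain ⟨g, hg⟩ := h1
  exact ⟨g, hg⟩

end

theorem pcf {F : Type u} {Om : Type v} [Field F] [IsAlgClosed F] [CharZero F] [Field Om]
    [IsAlgClosed Om] [Algebra F Om] (t : Om) (ht : Transcendental F t)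
    (hal : Algebra.IsAlgebraic (IntermediateField.adjoin F {t}) Om) (d : ℕ) (hd : 2 ≤ d)
    (p q : Polynomial Om) (hco : IsCoprime p q) (hmax : max p.natDegree q.natDegree = d)
    (hmul : ∀ n, 1 ≤ n → ∀ lam, IsMul d p q n lam → lam ∈ (algebraMap F Om).range)
    (Z : Om × Om) (hZ : Z ≠ 0) (hc : WH d p q Z = 0)
    (horb : ∀ m n, m < n → wd ((FH d p q)^[m] Z) ((FH d p q)^[n] Z) ≠ 0) :
    ∃ u w : Polynomial F, IsCoprime u w ∧ max u.natDegree w.natDegree = d ∧
      CjF d p q (u.map (algebraMap F Om)) (w.map (algebraMap F Om)) := by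
  classical
  haveI : CharZero Om := charZero_of_injective_algebraMap (algebraMap F Om).injective
  have hp : p.natDegree ≤ d := hmax ▸ le_max_left _ _
  have hq : q.natDegree ≤ d := hmax ▸ le_max_right _ _
  have hd1 : 1 ≤ d := by omega
  -- backward points
  obtain ⟨w1, hw1, hw1Z⟩ := surj d hd1 p q hp hq Z
  obtain ⟨w2, hw2, hw2w⟩ := surj d hd1 p q hp hq w1
  have hF1 : ∀ V W : Om × Om, W ≠ 0 → wd V W = 0 → wd (FH d p q V) (FH d p q W) = 0 :=
    fun V W hW h => wd_iter d p q 1 hW h
  have hnz : ∀ V : Om × Om, V ≠ 0 → FH d p q V ≠ 0 := fun V hV => FH_nz d hd1 p q hmax hco V hV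
  have hZ1 : wd Z w1 ≠ 0 := by
    intro h
    have h1 := hF1 Z w1 hw1 h
    have h2 := wd_zero_trans (hnz w1 hw1) h1 hw1Z
    exact horb 0 1 one_pos (wd_zero_symm h2)
  have hZ2 : wd w2 Z ≠ 0 := by
    intro h
    have h1 := hF1 _ _ hw2 (wd_zero_symm h)
    have h2 := wd_zero_trans (hnz w2 hw2) h1 hw2w
    have h3 := hF1 _ _ hw1 h2
    have h4 := wd_zero_trans (hnz w1 hw1) h3 hw1Z
    exact horb 0 2 (by omega) (wd_zero_symm h4)
  have h12 : wd w2 w1 ≠ 0 := by
    intro h
    have h1 := hF1 _ _ hw1 h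
    have h2 := wd_zero_trans (hnz w2 hw2) (wd_zero_symm hw2w) h1
    exact hZ1 (wd_zero_symm (wd_zero_trans (hnz w1 hw1) h2 hw1Z))
  obtain ⟨u0, v0, a, b, c, e, s, hdet, hs, hconj, hco0, hmax0, -, ⟨t1, ht1, hal1⟩, ⟨t2, ht2, hal2⟩,
    ⟨t3, ht3, hal3⟩⟩ := exists_norm d hd1 p q hmax hco Z w1 w2 hZ1 hZ2 h12
  have hu0 : u0.natDegree ≤ d := hmax0 ▸ le_max_left _ _
  have hv0 : v0.natDegree ≤ d := hmax0 ▸ le_max_right _ _
  obtain ⟨T, -, -, hT, hTi⟩ := FH_conj_iter d p q u0 v0 a b c e s hs hconj
  -- properties of the normalised map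
  have n01 : ∀ n, (FH d u0 v0)^[n] (t1 • (0, 1)) = T n • Ph a b c e ((FH d p q)^[n] Z) := by
    intro n
    rw [← hal1]
    exact hTi n Z
  have hinf0 : ∀ m n, m < n →
      wd ((FH d u0 v0)^[m] (0, 1)) ((FH d u0 v0)^[n] (0, 1)) ≠ 0 := by
    intro m n hmn h
    have h1 := n01 m
    have h2 := n01 n
    rw [FH_iter_smul] at h1 h2
    have h3 : wd (t1 ^ d ^ m • (FH d u0 v0)^[m] (0, 1)) (t1 ^ d ^ n • (FH d u0 v0)^[n] (0, 1)) =
        0 := by
      rw [wd_smul_left', wd_smul_right', h, mul_zero, mul_zero]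
    rw [h1, h2, wd_smul_left', wd_smul_right', wd_Ph] at h3
    exact mul_ne_zero (hT m) (mul_ne_zero (hT n) (mul_ne_zero hdet (horb m n hmn))) h3
  have hcrit0 : WH d u0 v0 (0, 1) = 0 := by
    have h1 := WH_conj d hd1 p q u0 v0 hp hq hu0 hv0 a b c e s hdet hconj Z hZ
    rw [hal1, WH_smul, hc, mul_zero] at h1
    exact (mul_eq_zero.mp h1).resolve_left (pow_ne_zero _ ht1)
  have h10 : (FH d u0 v0 (1, 0)).1 = 0 := by
    have h1 := hconj w1
    rw [hal2, FH_smul] at h1
    have h2 : wd (Ph a b c e (FH d p q w1)) (Ph a b c e Z) = 0 := by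
      rw [wd_Ph, hw1Z, mul_zero]
    have h3 : wd (t2 ^ d • FH d u0 v0 (1, 0)) (t1 • (0, 1)) = 0 := by
      rw [h1, ← hal1, wd_smul_left', h2, mul_zero]
    rw [wd_smul_left', wd_smul_right'] at h3
    have h4 := (mul_eq_zero.mp ((mul_eq_zero.mp h3).resolve_left (pow_ne_zero _ ht2))).resolve_left
      ht1
    unfold wd at h4
    simpa using h4
  have h11 : (FH d u0 v0 (1, 1)).2 = 0 := by
    have h1 := hconj w2
    rw [hal3, FH_smul] at h1
    have h2 : wd (Ph a b c e (FH d p q w2)) (Ph a b c e w1) = 0 := by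
      rw [wd_Ph, hw2w, mul_zero]
    have h3 : wd (t3 ^ d • FH d u0 v0 (1, 1)) (t2 • (1, 0)) = 0 := by
      rw [h1, ← hal2, wd_smul_left', h2, mul_zero]
    rw [wd_smul_left', wd_smul_right'] at h3
    have h4 := (mul_eq_zero.mp ((mul_eq_zero.mp h3).resolve_left (pow_ne_zero _ ht3))).resolve_left
      ht2
    unfold wd at h4
    simpa using h4
  have hcj : CjF d p q u0 v0 := ⟨a, b, c, e, s, hdet, hs, hconj⟩
  have hmul0 : ∀ n, 1 ≤ n → ∀ lam, IsMul d u0 v0 n lam → lam ∈ (algebraMap F Om).range := by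
    intro n hn lam hl
    exact hmul n hn lam (IsMul_conj d hd1 u0 v0 p q hu0 hv0 hp hq hmax0 hco0
      (CjF_symm d p q u0 v0 hcj) n lam hl)
  -- the field of definition
  set S0 : Finset Om := {t} ∪ u0.coeffs ∪ v0.coeffs ∪ (wr u0 v0).roots.toFinset with hS0
  set M : IntermediateField F Om := IntermediateField.adjoin F (S0 : Set Om) with hM
  have hSM : ∀ x ∈ S0, x ∈ M := fun x hx => IntermediateField.subset_adjoin F _ hx
  have htM : t ∈ M := hSM t (by simp [hS0])
  have hcoef : ∀ f : Polynomial Om, f.coeffs ⊆ S0 → ∀ i, f.coeff i ∈ M := by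
    intro f hf i
    by_cases h0 : f.coeff i = 0
    · rw [h0]
      exact zero_mem M
    · exact hSM _ (hf (coeff_mem_coeffs h0))
  obtain ⟨um, hum⟩ := exists_lift M u0 (hcoef u0 (by
    intro x hx
    simp only [hS0, mem_union]
    tauto))
  obtain ⟨vm, hvm⟩ := exists_lift M v0 (hcoef v0 (by
    intro x hx
    simp only [hS0, mem_union]
    tauto))
  have hFG : (⊤ : IntermediateField F M).FG := by
    rw [IntermediateField.fg_top_iff, IntermediateField.essFiniteType_iff]
    exact IntermediateField.fg_adjoin_finset S0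
  have halM : Algebra.IsAlgebraic M Om := alg_top M t htM hal
  obtain ⟨Q⟩ := exists_placeData_ff F M hFG ⟨⟨t, htM⟩, by
    intro h
    apply ht
    have := h.algebraMap (A := Om)
    exact this, alg_sub M ⟨t, htM⟩ hal⟩
  have hkc : Function.Surjective (algebraMap F (algebraicClosure F M)) := by
    intro x
    have hint : Algebra.IsIntegral F (algebraicClosure F M) :=
      (algebraicClosure.isAlgebraic F M).isIntegral
    exact (IsAlgClosed.algebraMap_bijective_of_isIntegral (k := F)
      (K := algebraicClosure F M)).2 x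
  haveI : CharZero (algebraicClosure F M) := charZero_of_injective_algebraMap
    (algebraMap F (algebraicClosure F M)).injective
  haveI : CharZero M := charZero_of_injective_algebraMap (algebraMap F M).injective
  set φ := algebraMap M Om with hφ
  have hmaxm : max um.natDegree vm.natDegree = d := by
    rw [← hmax0, ← hum, ← hvm, natDegree_map_eq_of_injective φ.injective,
      natDegree_map_eq_of_injective φ.injective]
  have hcom : IsCoprime um vm := by
    rw [← Polynomial.isCoprime_map φ, hum, hvm]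
    exact hco0
  have hspm : (wr um vm).Splits := by
    refine Splits.of_splits_map φ (IsAlgClosed.splits _) ?_
    intro x hx
    rw [← wr_map, hum, hvm] at hx
    exact ⟨⟨x, hSM x (by
      simp only [hS0, mem_union, Multiset.mem_toFinset]
      exact Or.inr hx)⟩, rfl⟩
  have hvi : Function.Injective (vh φ) := by
    intro x y hxy
    exact Prod.ext (φ.injective (congrArg Prod.fst hxy)) (φ.injective (congrArg Prod.snd hxy))
  have v01 : vh φ ((0, 1) : M × M) = (0, 1) := by simp [vh]
  have v10 : vh φ ((1, 0) : M × M) = (1, 0) := by simp [vh]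
  have v11 : vh φ ((1, 1) : M × M) = (1, 1) := by simp [vh]
  have hcritm : WH d um vm (0, 1) = 0 := by
    apply φ.injective
    rw [← WH_hom, hum, hvm, v01, hcrit0, map_zero]
  have h10m : (FH d um vm (1, 0)).1 = 0 := by
    apply φ.injective
    have h1 : vh φ (FH d um vm (1, 0)) = FH d u0 v0 (1, 0) := by
      rw [← FH_hom, hum, hvm, v10]
    have h2 := congrArg Prod.fst h1
    rw [map_zero, ← h10]
    exact h2
  have h11m : (FH d um vm (1, 1)).2 = 0 := by
    apply φ.injective
    have h1 : vh φ (FH d um vm (1, 1)) = FH d u0 v0 (1, 1) := by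
      rw [← FH_hom, hum, hvm, v11]
    have h2 := congrArg Prod.snd h1
    rw [map_zero, ← h11]
    exact h2
  have hitm : ∀ n, vh φ ((FH d um vm)^[n] (0, 1)) = (FH d u0 v0)^[n] (0, 1) := by
    intro n
    rw [← FH_iter_hom, hum, hvm, v01]
  have hwdm : ∀ X Y : M × M, φ (wd X Y) = wd (vh φ X) (vh φ Y) := by
    intro X Y
    unfold wd vh
    simp
  have hinfm : ∀ m n, m < n →
      wd ((FH d um vm)^[m] (0, 1)) ((FH d um vm)^[n] (0, 1)) ≠ 0 := by
    intro m n hmn h
    apply hinf0 m n hmn
    rw [← hitm, ← hitm, ← hwdm, h, map_zero]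
  have hmulm : ∀ n, 1 ≤ n → ∀ lam : Om, IsMul d (um.map (algebraMap M Om))
      (vm.map (algebraMap M Om)) n lam →
      ∃ c : algebraicClosure F M, lam = algebraMap M Om (algebraMap (algebraicClosure F M) M c) := by
    intro n hn lam hl
    rw [← hφ, hum, hvm] at hl
    obtain ⟨c, hc'⟩ := hmul0 n hn lam hl
    exact ⟨algebraMap F (algebraicClosure F M) c, hc'.symm⟩
  obtain ⟨n0, hn0⟩ := orb_const Q Om d hd um vm hmaxm hcom hspm hcritm h10m h11m hinfm hmulm
  choose hb0 cf hcf using hn0
  set A : ℕ → M := fun n => ((FH d um vm)^[n] (0, 1)).1 with hA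
  set B : ℕ → M := fun n => ((FH d um vm)^[n] (0, 1)).2 with hB
  have hstep : ∀ n, B n ≠ 0 → A (n + 1) = B n ^ d * um.eval (A n / B n) ∧
      B (n + 1) = B n ^ d * vm.eval (A n / B n) := by
    intro n hn
    have h1 : (FH d um vm)^[n + 1] (0, 1) = FH d um vm ((FH d um vm)^[n] (0, 1)) :=
      Function.iterate_succ_apply' _ _ _
    have hum' : um.natDegree ≤ d := hmaxm ▸ le_max_left _ _
    have hvm' : vm.natDegree ≤ d := hmaxm ▸ le_max_right _ _
    constructor
    · have h2 := congrArg Prod.fst h1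
      have h3 : (FH d um vm ((FH d um vm)^[n] (0, 1))).1 =
          hev d um ((FH d um vm)^[n] (0, 1)) := rfl
      rw [h3, hev_eval d um hum' _ hn] at h2
      exact h2
    · have h2 := congrArg Prod.snd h1
      have h3 : (FH d um vm ((FH d um vm)^[n] (0, 1))).2 =
          hev d vm ((FH d um vm)^[n] (0, 1)) := rfl
      rw [h3, hev_eval d vm hvm' _ hn] at h2
      exact h2
  obtain ⟨u', v', s', hs', hu', hv'⟩ := desc (k := algebraicClosure F M) d um vm hmaxm hcom hd1
    (fun n => cf (n0 + n) (by omega)) (fun n => cf (n0 + n + 1) (by omega))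
    (by
      intro m n hmn
      by_contra hne
      have h1 := hcf (n0 + m) (by omega)
      have h2 := hcf (n0 + n) (by omega)
      have h3 : cf (n0 + m) (by omega) = cf (n0 + n) (by omega) := hmn
      rw [h3, ← h2, div_eq_div_iff (hb0 (n0 + m) (by omega)) (hb0 (n0 + n) (by omega))] at h1
      rcases lt_or_gt_of_ne hne with h | h
      · apply hinfm (n0 + m) (n0 + n) (by omega)
        unfold wd
        linear_combination h1
      · apply hinfm (n0 + n) (n0 + m) (by omega)
        unfold wd
        linear_combination -h1)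
    (by
      intro n
      have h1 : A (n0 + n) / B (n0 + n) = algebraMap _ M (cf (n0 + n) (by omega)) :=
        hcf (n0 + n) (by omega)
      have h2 : A (n0 + n + 1) / B (n0 + n + 1) = algebraMap _ M (cf (n0 + n + 1) (by omega)) :=
        hcf (n0 + n + 1) (by omega)
      have hB0 : B (n0 + n) ≠ 0 := hb0 (n0 + n) (by omega)
      have hB1 : B (n0 + n + 1) ≠ 0 := hb0 (n0 + n + 1) (by omega)
      obtain ⟨h3, h4⟩ := hstep (n0 + n) hB0
      show um.eval (algebraMap _ M (cf (n0 + n) _)) =
        algebraMap _ M (cf (n0 + n + 1) _) * vm.eval (algebraMap _ M (cf (n0 + n) _))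
      rw [← h1, ← h2]
      have h5 : B (n0 + n) ^ d ≠ 0 := pow_ne_zero _ hB0
      apply mul_left_cancel₀ h5
      rw [← h3]
      have h6 : B (n0 + n) ^ d * (A (n0 + n + 1) / B (n0 + n + 1) *
          vm.eval (A (n0 + n) / B (n0 + n))) = A (n0 + n + 1) / B (n0 + n + 1) *
          (B (n0 + n) ^ d * vm.eval (A (n0 + n) / B (n0 + n))) := by ring
      rw [h6, ← h4, div_mul_cancel₀ _ hB1])
  obtain ⟨u, hu⟩ := Polynomial.map_surjective (algebraMap F (algebraicClosure F M)) hkc u'
  obtain ⟨w, hw⟩ := Polynomial.map_surjective (algebraMap F (algebraicClosure F M)) hkc v'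
  have hmapu : u.map (algebraMap F Om) = C (φ s') * u0 := by
    have h1 : algebraMap F Om = φ.comp ((algebraMap (algebraicClosure F M) M).comp
        (algebraMap F (algebraicClosure F M))) := rfl
    rw [h1, ← Polynomial.map_map, ← Polynomial.map_map, hu, hu', Polynomial.map_mul,
      Polynomial.map_C, hum]
  have hmapw : w.map (algebraMap F Om) = C (φ s') * v0 := by
    have h1 : algebraMap F Om = φ.comp ((algebraMap (algebraicClosure F M) M).comp
        (algebraMap F (algebraicClosure F M))) := rfl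
    rw [h1, ← Polynomial.map_map, ← Polynomial.map_map, hw, hv', Polynomial.map_mul,
      Polynomial.map_C, hvm]
  have hφs : φ s' ≠ 0 := (_root_.map_ne_zero φ).mpr hs'
  refine ⟨u, w, ?_, ?_, ?_⟩
  · rw [← Polynomial.isCoprime_map (algebraMap F Om), hmapu, hmapw]
    have hunit : IsUnit (C (φ s') : Polynomial Om) := isUnit_C.mpr (IsUnit.mk0 _ hφs)
    rw [isCoprime_mul_unit_left_left hunit, isCoprime_mul_unit_left_right hunit]
    exact hco0
  · rw [← natDegree_map_eq_of_injective (algebraMap F Om).injective u,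
      ← natDegree_map_eq_of_injective (algebraMap F Om).injective w, hmapu, hmapw,
      natDegree_C_mul hφs, natDegree_C_mul hφs]
    exact hmax0
  · refine ⟨a, b, c, e, φ s' * s, hdet, mul_ne_zero hφs hs, fun V => ?_⟩
    have h1 : FH d (u.map (algebraMap F Om)) (w.map (algebraMap F Om)) (Ph a b c e V) =
        φ s' • FH d u0 v0 (Ph a b c e V) := by
      rw [hmapu, hmapw]
      unfold FH
      rw [hev_C_mul, hev_C_mul]
      rfl
    rw [h1, hconj, smul_smul]

end Pool.Agent.E8helper71.MC
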