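import Pool.Agent.E8helper88.Mul.Glob1

/-!
# The unit equation over a function field: finitely many nonconstant solutions
-/

set_option autoImplicit false

namespace Pool.Agent.E8helper71.MC

open Finset
open Pool.Agent.W277.UB Pool.Agent.E8helper88.Mul
open Pool.Agent.W277.UB.PlaceData

universe u v w

section
variable {k : Type v} {K : Type u} [Field k] [Field K] [Algebra k K] (Q : PlaceData.{w} k K)

/-- Mason's inequality -/
lemma mason (S : Finset Q.Pl) : ∃ M : ℤ, ∀ x : K, x ≠ 0 → 1 - x ≠ 0 →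
    (∀ v, v ∉ S → Q.ord v x = 0 ∧ Q.ord v (1 - x) = 0) → (∀ c : k, x ≠ algebraMap k K c) →
    ht Q x ≤ M := by
  classical
  set T := S ∪ Q.lossS with hT
  set Tv : Q.Pl → ℤ := fun v => if v ∈ T then 1 + Q.loss v else 0 with hTv
  refine ⟨∑ v ∈ T, Q.wt v * (1 + Q.loss v), fun x hx hy hS hc => ?_⟩
  set y := 1 - x with hyd
  have hDx : Q.D x ≠ 0 := by
    intro h
    obtain ⟨c, hc'⟩ := Q.D_ker x h
    exact hc c hc'.symm
  have hDy : Q.D y = -Q.D x := by
    rw [hyd, map_sub, Derivation.map_one_eq_zero, zero_sub]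
  have hDy0 : Q.D y ≠ 0 := by rw [hDy]; exact neg_ne_zero.mpr hDx
  -- logarithmic derivatives have small poles
  have hlog : ∀ z : K, z ≠ 0 → Q.D z ≠ 0 → (∀ v, v ∉ S → Q.ord v z = 0) → ∀ v,
      -Tv v ≤ Q.ord v (Q.D z / z) := by
    intro z hz hDz hzS v
    rw [ord_div hDz hz]
    simp only [hTv]
    split_ifs with hv
    · have h1 := Q.D_ord v z 1 (Q.ord v z) hz (by simpa using hDz) le_rfl
      simp only [Function.iterate_one, Nat.cast_one, one_mul] at h1
      linarith
    · have hvS : v ∉ S := fun h => hv (Finset.mem_union_left _ h)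
      have hvL : v ∉ Q.lossS := fun h => hv (Finset.mem_union_right _ h)
      have h1 := Q.D_ord' v z 1 hz (by simpa using hDz) (hzS v hvS).ge
      simp only [Function.iterate_one, Nat.cast_one, Q.loss_supp v hvL, mul_zero] at h1
      rw [hzS v hvS]
      linarith
  set e : K := Q.D x / x - Q.D y / y with he
  have hxy : x + y = 1 := by rw [hyd]; ring
  have he' : e = Q.D x / (x * y) := by
    rw [he, hDy]
    field_simp
    linear_combination (Q.D x) * hxy
  have he0 : e ≠ 0 := by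
    rw [he']
    exact div_ne_zero hDx (mul_ne_zero hx hy)
  have hxe : x = -(Q.D y / y) / e := by
    rw [he', hDy]
    field_simp
  have heT : ∀ v, -Tv v ≤ Q.ord v e := by
    intro v
    have h1 : Q.G v (-Tv v) (Q.D x / x) := fun _ => hlog x hx hDx (fun v hv => (hS v hv).1) v
    have h2 : Q.G v (-Tv v) (Q.D y / y) := fun _ => hlog y hy hDy0 (fun v hv => (hS v hv).2) v
    exact G_sub h1 h2 he0
  have hpole : ∀ v, Q.pole v x ≤ Q.ord v e + Tv v := by
    intro v
    have h1 := heT v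
    rw [pole_of_ne hx]
    refine max_le (by linarith) ?_
    have hb0 : Q.D y / y ≠ 0 := div_ne_zero hDy0 hy
    have h2 : Q.ord v x = Q.ord v (Q.D y / y) - Q.ord v e := by
      conv_lhs => rw [hxe]
      rw [ord_div (neg_ne_zero.mpr hb0) he0, ord_neg hb0]
    have h3 := hlog y hy hDy0 (fun v hv => (hS v hv).2) v
    linarith
  obtain ⟨V, hV⟩ := exists_supp (Q := Q) {x, e}
  have hVx := hV x (by simp)
  have hVe := hV e (by simp)
  have hVx' : ∀ v, v ∉ V ∪ T → Q.pole v x = 0 := fun v hv =>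
    hVx.1 v fun h => hv (Finset.mem_union_left _ h)
  have hVe' : ∀ v, v ∉ V ∪ T → Q.ord v e = 0 := fun v hv =>
    hVe.2 he0 v fun h => hv (Finset.mem_union_left _ h)
  rw [ht_eq x (V ∪ T) hVx']
  calc ∑ v ∈ V ∪ T, Q.wt v * Q.pole v x ≤ ∑ v ∈ V ∪ T, (Q.wt v * Q.ord v e + Q.wt v * Tv v) := by
        refine Finset.sum_le_sum fun v _ => ?_
        rw [← mul_add]
        exact mul_le_mul_of_nonneg_left (hpole v) (Q.wt_nonneg v)
    _ = ∑ v ∈ V ∪ T, Q.wt v * Tv v := by
        rw [Finset.sum_add_distrib, prod_eq e he0 _ hVe', zero_add]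
    _ = ∑ v ∈ T, Q.wt v * Tv v := by
        symm
        apply Finset.sum_subset Finset.subset_union_right
        intro v _ hv
        simp only [hTv]
        rw [if_neg hv, mul_zero]
    _ = ∑ v ∈ T, Q.wt v * (1 + Q.loss v) := by
        refine Finset.sum_congr rfl fun v hv => ?_
        simp only [hTv]
        rw [if_pos hv]

/-- the order of an element is bounded by its height -/
lemma ord_le_ht (x : K) (hx : x ≠ 0) (v : Q.Pl) : |Q.ord v x| ≤ ht Q x := by
  classical
  have h1 := ht_zeros (Q := Q) x hx {v}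
  have h2 := ht_zeros (Q := Q) x⁻¹ (inv_ne_zero hx) {v}
  rw [ht_inv] at h2
  rw [Finset.sum_singleton] at h1 h2
  rw [ord_inv hx] at h2
  have h3 := Q.wt_one v
  have h4 := ht_nonneg (Q := Q) x
  rw [abs_le]
  constructor
  · by_contra hcon
    push Not at hcon
    nlinarith
  · by_contra hcon
    push Not at hcon
    nlinarith

/-- elements with the same orders differ by a constant -/
lemma const_of_ord (x y : K) (hx : x ≠ 0) (hy : y ≠ 0) (h : ∀ v, Q.ord v x = Q.ord v y) :
    ∃ c : k, y = algebraMap k K c * x := by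
  obtain ⟨c, hc⟩ := Q.const (y / x) (div_ne_zero hy hx) (fun v => by
    rw [ord_div hy hx, h v, sub_self])
  exact ⟨c, by rw [hc, div_mul_cancel₀ _ hx]⟩

/-- **the unit equation has finitely many nonconstant solutions** -/
theorem unit_fin (S : Finset Q.Pl) :
    {x : K | x ≠ 0 ∧ 1 - x ≠ 0 ∧ (∀ v, v ∉ S → Q.ord v x = 0 ∧ Q.ord v (1 - x) = 0) ∧
      ∀ c : k, x ≠ algebraMap k K c}.Finite := by
  classical
  obtain ⟨M, hM⟩ := mason Q S
  set A : Set K := {x : K | x ≠ 0 ∧ 1 - x ≠ 0 ∧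
    (∀ v, v ∉ S → Q.ord v x = 0 ∧ Q.ord v (1 - x) = 0) ∧ ∀ c : k, x ≠ algebraMap k K c} with hA
  -- the symmetry
  have hsym : ∀ x ∈ A, 1 - x ∈ A := by
    rintro x ⟨h1, h2, h3, h4⟩
    have e : 1 - (1 - x) = x := by ring
    refine ⟨h2, by rw [e]; exact h1, fun v hv => by rw [e]; exact ⟨(h3 v hv).2, (h3 v hv).1⟩, ?_⟩
    intro c hc
    apply h4 (1 - c)
    rw [map_sub, map_one, ← hc]
    ring
  have hbd : ∀ x ∈ A, ∀ v, |Q.ord v x| ≤ M := fun x hx v =>
    (ord_le_ht Q x hx.1 v).trans (hM x hx.1 hx.2.1 hx.2.2.1 hx.2.2.2)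
  set g : K → (S → ℤ × ℤ) := fun x v => (Q.ord v.1 x, Q.ord v.1 (1 - x)) with hg
  have himg : (g '' A).Finite := by
    have hfin : (Set.univ.pi fun _ : S => (Set.Icc (-M) M ×ˢ Set.Icc (-M) M : Set (ℤ × ℤ))).Finite :=
      Set.Finite.pi fun _ => (Set.finite_Icc _ _).prod (Set.finite_Icc _ _)
    refine hfin.subset ?_
    rintro _ ⟨x, hx, rfl⟩ v _
    have h1 := abs_le.1 (hbd x hx v.1)
    have h2 := abs_le.1 (hbd (1 - x) (hsym x hx) v.1)
    exact ⟨⟨h1.1, h1.2⟩, ⟨h2.1, h2.2⟩⟩
  refine Set.Finite.of_finite_image himg ?_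
  intro x hx y hy hxy
  have hord : ∀ v, Q.ord v x = Q.ord v y ∧ Q.ord v (1 - x) = Q.ord v (1 - y) := by
    intro v
    by_cases hv : v ∈ S
    · have := congrFun hxy ⟨v, hv⟩
      simp only [hg, Prod.mk.injEq] at this
      exact this
    · exact ⟨by rw [(hx.2.2.1 v hv).1, (hy.2.2.1 v hv).1],
        by rw [(hx.2.2.1 v hv).2, (hy.2.2.1 v hv).2]⟩
  obtain ⟨c, hc⟩ := const_of_ord Q x y hx.1 hy.1 fun v => (hord v).1
  obtain ⟨c', hc'⟩ := const_of_ord Q (1 - x) (1 - y) hx.2.1 hy.2.1 fun v => (hord v).2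
  have h1 : algebraMap k K (c - c') * x = algebraMap k K (1 - c') := by
    rw [map_sub, map_sub, map_one]
    linear_combination -hc - hc'
  by_cases hcc : c = c'
  · subst hcc
    rw [sub_self, map_zero, zero_mul] at h1
    have h2 : (1 : k) - c = 0 := by
      apply (algebraMap k K).injective
      rw [← h1, map_zero]
    have h3 : c = 1 := by linear_combination -h2
    rw [h3, map_one, one_mul] at hc
    exact hc.symm
  · exfalso
    apply hx.2.2.2 ((1 - c') / (c - c'))
    have h2 : algebraMap k K (c - c') ≠ 0 := by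
      rw [Ne, map_eq_zero]
      exact sub_ne_zero.mpr hcc
    rw [map_div₀, eq_div_iff h2, mul_comm]
    exact h1

end

end Pool.Agent.E8helper71.MC
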