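import Pool.Agent.E8helper71.MC.Orb
import Pool.Agent.E8helper71.MC.Unit

/-!
# The critical orbit is eventually constant, descent to the constants
-/

set_option autoImplicit false
set_option linter.unusedSectionVars false
set_option linter.style.haveILetI false

namespace Pool.Agent.E8helper71.MC

open Polynomial Finset
open Pool.Agent.W277.UB Pool.Agent.W277.UG Pool.Agent.W277.UH Pool.Agent.E8helper88.Mul

universe u v w

section
variable {K : Type u} [Field K]

lemma orb_nz (d : ℕ) (p q : Polynomial K) (h10 : (FH d p q (1, 0)).1 = 0)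
    (h11 : (FH d p q (1, 1)).2 = 0)
    (hinf : ∀ m n, m < n → wd ((FH d p q)^[m] (0, 1)) ((FH d p q)^[n] (0, 1)) ≠ 0) (n : ℕ)
    (hn : 1 ≤ n) : ((FH d p q)^[n] (0, 1)).1 ≠ 0 ∧ ((FH d p q)^[n] (0, 1)).2 ≠ 0 ∧
      ((FH d p q)^[n] (0, 1)).2 - ((FH d p q)^[n] (0, 1)).1 ≠ 0 := by
  have hA : ∀ n, 1 ≤ n → ((FH d p q)^[n] (0, 1)).1 ≠ 0 := by
    intro n hn h
    apply hinf 0 n (by omega)
    rw [Function.iterate_zero, id_eq]
    unfold wd
    rw [h]
    ring
  have hB : ∀ n, 1 ≤ n → ((FH d p q)^[n] (0, 1)).2 ≠ 0 := by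
    intro n hn h
    apply hA (n + 1) (by omega)
    rw [Function.iterate_succ_apply']
    have h1 : (FH d p q)^[n] (0, 1) = ((FH d p q)^[n] (0, 1)).1 • (1, 0) := by
      refine Prod.ext ?_ ?_
      · simp
      · simp [h]
    rw [h1, FH_smul, Prod.smul_fst, h10, smul_zero]
  refine ⟨hA n hn, hB n hn, ?_⟩
  intro h
  apply hB (n + 1) (by omega)
  rw [Function.iterate_succ_apply']
  have h1 : (FH d p q)^[n] (0, 1) = ((FH d p q)^[n] (0, 1)).1 • (1, 1) := by
    refine Prod.ext ?_ ?_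
    · simp
    · simp only [Prod.smul_snd, smul_eq_mul, mul_one]
      exact sub_eq_zero.mp h
  rw [h1, FH_smul, Prod.smul_snd, h11, smul_zero]

theorem orb_const {k : Type v} [Field k] [CharZero k] [Algebra k K] (Q : PlaceData.{w} k K)
    (Ωa : Type*) [Field Ωa] [IsAlgClosed Ωa] [Algebra K Ωa] [Algebra.IsAlgebraic K Ωa]
    (d : ℕ) (hd : 2 ≤ d) (p q : Polynomial K) (hmax : max p.natDegree q.natDegree = d)
    (hco : IsCoprime p q) (hsp : (wr p q).Splits) (hcrit : WH d p q (0, 1) = 0)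
    (h10 : (FH d p q (1, 0)).1 = 0) (h11 : (FH d p q (1, 1)).2 = 0)
    (hinf : ∀ m n, m < n → wd ((FH d p q)^[m] (0, 1)) ((FH d p q)^[n] (0, 1)) ≠ 0)
    (hmul : ∀ n, 1 ≤ n → ∀ lam : Ωa, IsMul d (p.map (algebraMap K Ωa)) (q.map (algebraMap K Ωa)) n
      lam → ∃ c : k, lam = algebraMap K Ωa (algebraMap k K c)) :
    ∃ n0, ∀ n, n0 ≤ n → ((FH d p q)^[n] (0, 1)).2 ≠ 0 ∧ ∃ c : k,
      ((FH d p q)^[n] (0, 1)).1 / ((FH d p q)^[n] (0, 1)).2 = algebraMap k K c := by
  classical
  haveI : CharZero K := charZero_of_injective_algebraMap (algebraMap k K).injective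
  obtain ⟨E0, hE0⟩ := exists_E0.{u, u} d (by omega) p q hmax hco
  set cy := cyc d p q (crv p q) with hcy
  obtain ⟨S, hS⟩ := exists_supp (Q := Q) (E0 ∪ cy.image Prod.fst ∪ cy.image Prod.snd)
  have hnz := orb_nz d p q h10 h11 hinf
  have hord : ∀ v, v ∉ S → ∀ n, 1 ≤ n → Q.ord v ((FH d p q)^[n] (0, 1)).1 = 0 ∧
      Q.ord v ((FH d p q)^[n] (0, 1)).2 = 0 ∧
      Q.ord v (((FH d p q)^[n] (0, 1)).2 - ((FH d p q)^[n] (0, 1)).1) = 0 := by
    intro v hv n hn
    by_cases htr : ∀ x : K, x ≠ 0 → Q.ord v x = 0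
    · exact ⟨htr _ (hnz n hn).1, htr _ (hnz n hn).2.1, htr _ (hnz n hn).2.2⟩
    push Not at htr
    obtain ⟨π, hπ0, hπ⟩ := htr
    obtain ⟨Ω, i1, i2, i3, ι, hι⟩ := exists_ext Q v π hπ0 hπ
    have hE : ∀ x ∈ E0 ∪ cy.image Prod.fst ∪ cy.image Prod.snd, ‖ι x‖ ≤ 1 ∧
        (x ≠ 0 → ‖ι x‖ = 1) := by
      intro x hx
      have h1 : x ≠ 0 → ‖ι x‖ = 1 := by
        intro hx0
        rw [hι x hx0, (hS x hx).2 hx0 v hv]
        simp
      refine ⟨?_, h1⟩
      by_cases hx0 : x = 0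
      · rw [hx0, map_zero, norm_zero]
        exact zero_le_one
      · exact (h1 hx0).le
    obtain ⟨ip, iq, hG⟩ := hE0 Ω ι fun x hx => hE x (by
      rw [mem_union, mem_union]
      exact Or.inl (Or.inl hx))
    obtain ⟨h1, h2, h3⟩ := orb_unit Ωa d hd p q hmax hco hsp hcrit h10 h11 hinf hmul ι ip iq hG
      (fun c hc => by
        rw [hι _ ((_root_.map_ne_zero _).mpr hc), Q.ord_alg v c hc]
        simp)
      (fun e he => ⟨(hE e.1 (by
        rw [mem_union, mem_union]
        exact Or.inl (Or.inr (mem_image_of_mem _ he)))).2, (hE e.2 (by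
        rw [mem_union]
        exact Or.inr (mem_image_of_mem _ he))).2⟩) n hn
    have key : ∀ x : K, x ≠ 0 → ‖ι x‖ = 1 → Q.ord v x = 0 := by
      intro x hx0 hx
      rw [hι x hx0, Real.exp_eq_one_iff, neg_eq_zero] at hx
      exact_mod_cast hx
    exact ⟨key _ (hnz n hn).1 h1, key _ (hnz n hn).2.1 h2, key _ (hnz n hn).2.2 h3⟩
  set un : ℕ → K := fun n => ((FH d p q)^[n] (0, 1)).1 / ((FH d p q)^[n] (0, 1)).2 with hun
  have hfin := unit_fin Q S
  have hsub : {n : ℕ | 1 ≤ n ∧ ∀ c : k, un n ≠ algebraMap k K c}.Finite := by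
    refine Set.Finite.of_finite_image (f := un) (hfin.subset ?_) ?_
    · rintro x ⟨n, ⟨hn, hc⟩, rfl⟩
      obtain ⟨a0, b0, c0⟩ := hnz n hn
      have e1 : 1 - un n = (((FH d p q)^[n] (0, 1)).2 - ((FH d p q)^[n] (0, 1)).1) /
          ((FH d p q)^[n] (0, 1)).2 := by
        simp only [hun]
        field_simp
      refine ⟨div_ne_zero a0 b0, by rw [e1]; exact div_ne_zero c0 b0, fun v hv => ?_, hc⟩
      obtain ⟨o1, o2, o3⟩ := hord v hv n hn
      rw [e1]
      simp only [hun]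
      rw [PlaceData.ord_div a0 b0, PlaceData.ord_div c0 b0, o1, o2, o3]
      simp
    · intro m hm n hn hmn
      by_contra hne
      simp only [hun] at hmn
      obtain ⟨a0, b0, c0⟩ := hnz m hm.1
      obtain ⟨a1, b1, c1⟩ := hnz n hn.1
      rw [div_eq_div_iff b0 b1] at hmn
      rcases lt_or_gt_of_ne hne with h | h
      · apply hinf m n h
        unfold wd
        linear_combination hmn
      · apply hinf n m h
        unfold wd
        linear_combination -hmn
  obtain ⟨n1, hn1⟩ := hsub.bddAbove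
  refine ⟨n1 + 1, fun n hn => ⟨(hnz n (by omega)).2.1, ?_⟩⟩
  by_contra hcon
  push Not at hcon
  have := hn1 ⟨by omega, hcon⟩
  omega

/-- applying a functional to the coefficients -/
noncomputable def fn {k : Type v} [Field k] [Algebra k K] (ℓ : K →ₗ[k] k) (d : ℕ)
    (p : Polynomial K) : Polynomial k := ∑ i ∈ range (d + 1), C (ℓ (p.coeff i)) * X ^ i

lemma fn_coeff {k : Type v} [Field k] [Algebra k K] (ℓ : K →ₗ[k] k) (d : ℕ)
    (p : Polynomial K) : (fn ℓ d p).coeff d = ℓ (p.coeff d) := by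
  unfold fn
  rw [finsetSum_coeff, Finset.sum_eq_single d]
  · rw [coeff_C_mul, coeff_X_pow, if_pos rfl, mul_one]
  · intro i _ hi
    rw [coeff_C_mul, coeff_X_pow, if_neg (Ne.symm hi), mul_zero]
  · intro h
    exact absurd (mem_range.2 (by omega)) h

lemma fn_deg {k : Type v} [Field k] [Algebra k K] (ℓ : K →ₗ[k] k) (d : ℕ)
    (p : Polynomial K) : (fn ℓ d p).natDegree ≤ d := by
  unfold fn
  refine natDegree_sum_le_of_forall_le _ _ fun i hi => ?_
  rw [mem_range] at hi
  exact (natDegree_C_mul_X_pow_le _ _).trans (by omega)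

lemma fn_eval {k : Type v} [Field k] [Algebra k K] (ℓ : K →ₗ[k] k) (d : ℕ)
    (p : Polynomial K) (hp : p.natDegree ≤ d) (x : k) :
    (fn ℓ d p).eval x = ℓ (p.eval (algebraMap k K x)) := by
  unfold fn
  rw [eval_finsetSum, eval_eq_sum_range' (Nat.lt_succ_of_le hp), map_sum]
  refine Finset.sum_congr rfl fun i _ => ?_
  rw [eval_mul, eval_C, eval_pow, eval_X, ← map_pow, mul_comm (p.coeff i), ← Algebra.smul_def,
    map_smul, smul_eq_mul, mul_comm]

lemma scal (d : ℕ) (p q P0 Q0 : Polynomial K) (hco : IsCoprime p q) (hp : p.natDegree = d)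
    (hp0 : p ≠ 0) (hP : P0.natDegree ≤ d) (hPc : P0.coeff d ≠ 0) (h : p * Q0 = q * P0) :
    ∃ s : K, s ≠ 0 ∧ P0 = C s * p ∧ Q0 = C s * q := by
  have h1 : p ∣ P0 := hco.dvd_of_dvd_mul_left ⟨Q0, h.symm⟩
  obtain ⟨r, hr⟩ := h1
  have hP0 : P0 ≠ 0 := by
    rintro rfl
    simp at hPc
  have hr0 : r ≠ 0 := by
    rintro rfl
    rw [mul_zero] at hr
    exact hP0 hr
  have h2 : P0.natDegree = p.natDegree + r.natDegree := by rw [hr, natDegree_mul hp0 hr0]
  have h3 : r.natDegree = 0 := by omega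
  rw [eq_C_of_natDegree_eq_zero h3] at hr
  have hs : r.coeff 0 ≠ 0 := by
    intro h4
    rw [h4, C_0, mul_zero] at hr
    exact hP0 hr
  refine ⟨r.coeff 0, hs, by rw [hr]; ring, ?_⟩
  apply mul_left_cancel₀ hp0
  rw [h, hr]
  ring

/-- **descent**: infinitely many constant points with constant images -/
theorem desc {k : Type v} [Field k] [Algebra k K] (d : ℕ) (p q : Polynomial K)
    (hmax : max p.natDegree q.natDegree = d) (hco : IsCoprime p q) (hd : 1 ≤ d) (x : ℕ → k)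
    (y : ℕ → k) (hx : Function.Injective x)
    (h : ∀ n, p.eval (algebraMap k K (x n)) =
      algebraMap k K (y n) * q.eval (algebraMap k K (x n))) :
    ∃ (u w : Polynomial k) (s : K), s ≠ 0 ∧ u.map (algebraMap k K) = C s * p ∧
      w.map (algebraMap k K) = C s * q := by
  have hp : p.natDegree ≤ d := hmax ▸ le_max_left _ _
  have hq : q.natDegree ≤ d := hmax ▸ le_max_right _ _
  have key : ∀ ℓ : K →ₗ[k] k, p * (fn ℓ d q).map (algebraMap k K) =
      q * (fn ℓ d p).map (algebraMap k K) := by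
    intro ℓ
    have h1 : ∀ n, (p * (fn ℓ d q).map (algebraMap k K) -
        q * (fn ℓ d p).map (algebraMap k K)).eval (algebraMap k K (x n)) = 0 := by
      intro n
      rw [eval_sub, eval_mul, eval_mul, eval_map_apply, eval_map_apply, fn_eval ℓ d q hq,
        fn_eval ℓ d p hp, h n, ← Algebra.smul_def (y n), map_smul, smul_eq_mul, map_mul,
        Algebra.smul_def]
      ring
    refine sub_eq_zero.mp (Polynomial.eq_zero_of_infinite_isRoot _ ?_)
    refine Set.infinite_of_injective_forall_mem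
      (f := fun n => algebraMap k K (x n)) ?_ h1
    exact (algebraMap k K).injective.comp hx
  rcases max_choice p.natDegree q.natDegree with h1 | h1
  · have h2 : p.natDegree = d := h1.symm.trans hmax
    have hp0 : p ≠ 0 := by
      rintro rfl
      rw [natDegree_zero] at h2
      omega
    have h3 : p.coeff d ≠ 0 := by
      rw [← h2]
      exact leadingCoeff_ne_zero.mpr hp0
    obtain ⟨ℓ, hℓ⟩ : ∃ ℓ : Module.Dual k K, ℓ (p.coeff d) ≠ 0 := by
      by_contra hcon
      push Not at hcon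
      exact h3 ((Module.forall_dual_apply_eq_zero_iff k _).mp hcon)
    obtain ⟨s, hs, e1, e2⟩ := scal d p q ((fn ℓ d p).map (algebraMap k K))
      ((fn ℓ d q).map (algebraMap k K)) hco h2 hp0 (natDegree_map_le.trans (fn_deg ℓ d p))
      (by
        rw [coeff_map, fn_coeff]
        exact (_root_.map_ne_zero _).mpr hℓ) (key ℓ)
    exact ⟨fn ℓ d p, fn ℓ d q, s, hs, e1, e2⟩
  · have h2 : q.natDegree = d := h1.symm.trans hmax
    have hq0 : q ≠ 0 := by
      rintro rfl
      rw [natDegree_zero] at h2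
      omega
    have h3 : q.coeff d ≠ 0 := by
      rw [← h2]
      exact leadingCoeff_ne_zero.mpr hq0
    obtain ⟨ℓ, hℓ⟩ : ∃ ℓ : Module.Dual k K, ℓ (q.coeff d) ≠ 0 := by
      by_contra hcon
      push Not at hcon
      exact h3 ((Module.forall_dual_apply_eq_zero_iff k _).mp hcon)
    obtain ⟨s, hs, e1, e2⟩ := scal d q p ((fn ℓ d q).map (algebraMap k K))
      ((fn ℓ d p).map (algebraMap k K)) hco.symm h2 hq0 (natDegree_map_le.trans (fn_deg ℓ d q))
      (by
        rw [coeff_map, fn_coeff]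
        exact (_root_.map_ne_zero _).mpr hℓ) (key ℓ).symm
    exact ⟨fn ℓ d p, fn ℓ d q, s, hs, e2, e1⟩

end

end Pool.Agent.E8helper71.MC
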