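import Pool.Agent.E8helper71.MC.Fin

/-!
# The Lattes condition: invariance under conjugation and field homomorphisms
-/

set_option autoImplicit false
set_option linter.unusedSectionVars false
set_option linter.style.haveILetI false

namespace Pool.Agent.E8helper71.MC

open Polynomial Finset
open Pool.Agent.W277.UB Pool.Agent.W277.UG Pool.Agent.W277.UH Pool.Agent.E8helper88.Mul
open Pool.Agent.Y676.CH Pool.Agent.Y706.CH Pool.Agent.Y195.CH

universe u v w

/-- there is a nonzero rational function `R = A / B` with `R(f) f'^2 = d R` -/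
def Lat {K : Type*} [Field K] (d : ℕ) (p q : Polynomial K) : Prop :=
  ∃ (A B : Polynomial K) (N : ℕ), A ≠ 0 ∧ B ≠ 0 ∧ A.natDegree ≤ N ∧ B.natDegree ≤ N ∧
    hc N A p q * (wr p q) ^ 2 * B = C (d : K) * (hc N B p q * q ^ 4 * A)

section
variable {K : Type u} [Field K]

lemma Lat_hom {L : Type v} [Field L] (φ : K →+* L) (d : ℕ) (p q : Polynomial K)
    (h : Lat d p q) : Lat d (p.map φ) (q.map φ) := by
  obtain ⟨A, B, N, hA, hB, hAN, hBN, h⟩ := h
  refine ⟨A.map φ, B.map φ, N, (Polynomial.map_ne_zero_iff φ.injective).mpr hA,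
    (Polynomial.map_ne_zero_iff φ.injective).mpr hB, natDegree_map_le.trans hAN,
    natDegree_map_le.trans hBN, ?_⟩
  have h1 := congrArg (Polynomial.map φ) h
  simp only [Polynomial.map_mul, Polynomial.map_pow, hc_map', Polynomial.map_C] at h1
  rw [map_natCast φ d] at h1
  rw [wr_map]
  exact h1

/-- the homogeneous form of the Lattes condition -/
lemma Lat_aux [CharZero K] (d : ℕ) (hd : 1 ≤ d) (p q A B : Polynomial K) (N : ℕ)
    (hp : p.natDegree ≤ d) (hq : q.natDegree ≤ d) (hAN : A.natDegree ≤ N)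
    (hBN : B.natDegree ≤ N) :
    (hc N A p q * (wr p q) ^ 2 * B = C (d : K) * (hc N B p q * q ^ 4 * A) →
    ∀ Y : K × K, Y.2 ≠ 0 → hev N A (FH d p q Y) * WH d p q Y ^ 2 * hev N B Y * Y.2 ^ 4 =
      d * (hev N B (FH d p q Y) * (hev d q Y) ^ 4 * hev N A Y)) ∧
    ∀ c e : K, (c ≠ 0 ∨ e ≠ 0) → (∀ x : K, c * x + e ≠ 0 →
      hev N A (FH d p q (x, 1)) * WH d p q (x, 1) ^ 2 * hev N B (x, 1) * (1 : K) ^ 4 =
      d * (hev N B (FH d p q (x, 1)) * (hev d q (x, 1)) ^ 4 * hev N A (x, 1))) →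
      hc N A p q * (wr p q) ^ 2 * B = C (d : K) * (hc N B p q * q ^ 4 * A) := by
  have hw := wr_deg d hd p q hp hq
  have key : ∀ Y : K × K, Y.2 ≠ 0 →
      hev N A (FH d p q Y) * WH d p q Y ^ 2 * hev N B Y * Y.2 ^ 4 =
        Y.2 ^ (d * N + 4 * d + N) *
          (hc N A p q * (wr p q) ^ 2 * B).eval (Y.1 / Y.2) ∧
      d * (hev N B (FH d p q Y) * (hev d q Y) ^ 4 * hev N A Y) =
        Y.2 ^ (d * N + 4 * d + N) *
          (C (d : K) * (hc N B p q * q ^ 4 * A)).eval (Y.1 / Y.2) := by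
    intro Y hY
    have h1 : FH d p q Y = Y.2 ^ d • (p.eval (Y.1 / Y.2), q.eval (Y.1 / Y.2)) := by
      unfold FH
      rw [hev_eval d p hp Y hY, hev_eval d q hq Y hY]
      rfl
    constructor
    · rw [h1, hev_smul, hev_eval N B hBN Y hY]
      unfold WH
      rw [hev_eval _ _ hw Y hY, eval_mul, eval_mul, eval_pow, hc_eval]
      have h2 : Y.2 ^ (d * N + 4 * d + N) = (Y.2 ^ d) ^ N * (Y.2 ^ (2 * d - 2)) ^ 2 * Y.2 ^ N *
          Y.2 ^ 4 := by
        rw [← pow_mul, ← pow_mul, ← pow_add, ← pow_add, ← pow_add]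
        congr 1
        obtain ⟨m, rfl⟩ : ∃ m, d = m + 1 := ⟨d - 1, by omega⟩
        have : 2 * (m + 1) - 2 = 2 * m := by omega
        rw [this]
        ring
      rw [h2]
      ring
    · rw [h1, hev_smul, hev_eval N A hAN Y hY, hev_eval d q hq Y hY, eval_mul, eval_C, eval_mul,
        eval_mul, eval_pow, hc_eval]
      have h2 : Y.2 ^ (d * N + 4 * d + N) = (Y.2 ^ d) ^ N * (Y.2 ^ d) ^ 4 * Y.2 ^ N := by
        rw [← pow_mul, ← pow_mul, ← pow_add, ← pow_add]
        congr 1
        ring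
      rw [h2]
      ring
  constructor
  · intro h Y hY
    obtain ⟨h1, h2⟩ := key Y hY
    rw [h1, h2, h]
  · intro c e hce h
    have hL : (C c * X + C e : Polynomial K) ≠ 0 := by
      intro h0
      rcases hce with h1 | h1
      · have := congrArg (fun f => f.coeff 1) h0
        simp at this
        exact h1 this
      · have := congrArg (fun f => f.coeff 0) h0
        simp at this
        exact h1 this
    apply mul_right_cancel₀ hL
    apply Polynomial.funext
    intro x
    have hm : ∀ f : Polynomial K, (f * (C c * X + C e)).eval x = f.eval x * (c * x + e) :=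
      fun f => by simp
    rw [hm, hm]
    by_cases hx : c * x + e = 0
    · rw [hx, mul_zero, mul_zero]
    · have hx1 : ((x, 1) : K × K).2 ≠ 0 := one_ne_zero
      obtain ⟨h1, h2⟩ := key (x, 1) hx1
      have h3 := h x hx
      rw [h1, h2] at h3
      simp only [one_pow, one_mul, div_one] at h3
      rw [h3]

lemma hev_pad (N m : ℕ) (f : Polynomial K) (hf : f.natDegree ≤ N) (Z : K × K) :
    hev (N + m) f Z = hev N f Z * Z.2 ^ m := by
  have h1 := hev_mulF N m f 1 hf (by simp) Z
  rw [mul_one] at h1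
  rw [h1]
  congr 1
  have h2 := hev_CX m 0 (Nat.zero_le m) (1 : K) Z
  simpa using h2

lemma hev_linpow (m : ℕ) (c e : K) (Z : K × K) :
    hev m ((C c * X + C e) ^ m) Z = (c * Z.1 + e * Z.2) ^ m := by
  induction m with
  | zero =>
    have h2 := hev_CX 0 0 le_rfl (1 : K) Z
    simpa using h2
  | succ m ih =>
    rw [pow_succ, hev_mulF m 1 _ _ ?_ natDegree_linear_le, ih, pow_succ]
    · congr 1
      unfold hev
      rw [Finset.sum_range_succ, Finset.sum_range_one]
      simp
      ring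
    · calc _ ≤ m * (C c * X + C e : Polynomial K).natDegree := natDegree_pow_le
        _ ≤ m * 1 := Nat.mul_le_mul_left _ natDegree_linear_le
        _ = m := mul_one m

/-- the Lattes condition is invariant under conjugation -/
theorem Lat_conj [CharZero K] (d : ℕ) (hd : 1 ≤ d) (p q u w : Polynomial K)
    (hp : p.natDegree ≤ d) (hq : q.natDegree ≤ d) (hu : u.natDegree ≤ d) (hw : w.natDegree ≤ d)
    (h : CjF d p q u w) (hL : Lat d u w) : Lat d p q := by
  obtain ⟨a, b, c, e, s, hdet, hs, hconj⟩ := h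
  obtain ⟨A, B, N, hA, hB, hAN, hBN, hAB⟩ := hL
  have hAB' := (Lat_aux d hd u w A B N hu hw hAN hBN).1 hAB
  set L1 : Polynomial K := C a * X + C b with hL1
  set L2 : Polynomial K := C c * X + C e with hL2
  have hdeg : ∀ f : Polynomial K, (hc N f L1 L2).natDegree ≤ N := by
    intro f
    have := hc_degree N 1 f L1 L2 natDegree_linear_le natDegree_linear_le
    rwa [mul_one] at this
  have hce : c ≠ 0 ∨ e ≠ 0 := by
    by_contra hcon
    push Not at hcon
    apply hdet
    rw [hcon.1, hcon.2]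
    ring
  have hL20 : L2 ≠ 0 := by
    intro h0
    rcases hce with h1 | h1
    · have := congrArg (fun f => f.coeff 1) h0
      simp [hL2] at this
      exact h1 this
    · have := congrArg (fun f => f.coeff 0) h0
      simp [hL2] at this
      exact h1 this
  have hne : ∀ f : Polynomial K, f ≠ 0 → f.natDegree ≤ N → hc N f L1 L2 ≠ 0 := by
    intro f hf hfN h0
    apply hf
    apply Polynomial.funext
    intro x
    have h1 : ∀ Z : K × K, hev N f (Ph a b c e Z) = 0 := by
      intro Z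
      rw [← hev_lin, ← hL1, ← hL2, h0]
      unfold hev
      simp
    have h2 := h1 (Ph e (-b) (-c) a (x, 1))
    rw [Ph_adj, hev_smul, hev_one N f hfN] at h2
    rw [eval_zero]
    exact (mul_eq_zero.mp h2).resolve_left (pow_ne_zero _ hdet)
  set D := a * e - b * c with hD
  refine ⟨C (D ^ 2) * hc N A L1 L2, hc N B L1 L2 * L2 ^ 4, N + 4,
    mul_ne_zero (C_ne_zero.mpr (pow_ne_zero _ hdet)) (hne A hA hAN),
    mul_ne_zero (hne B hB hBN) (pow_ne_zero _ hL20), ?_, ?_, ?_⟩
  · exact ((natDegree_C_mul_le _ _).trans (hdeg A)).trans (by omega)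
  · refine natDegree_mul_le.trans (add_le_add (hdeg B) ?_)
    calc _ ≤ 4 * L2.natDegree := natDegree_pow_le
      _ ≤ 4 * 1 := Nat.mul_le_mul_left _ natDegree_linear_le
      _ = 4 := by norm_num
  have hdA : (C (D ^ 2) * hc N A L1 L2).natDegree ≤ N := (natDegree_C_mul_le _ _).trans (hdeg A)
  have hL4 : (L2 ^ 4).natDegree ≤ 4 := by
    calc _ ≤ 4 * L2.natDegree := natDegree_pow_le
      _ ≤ 4 * 1 := Nat.mul_le_mul_left _ natDegree_linear_le
      _ = 4 := by norm_num
  have hdB : (hc N B L1 L2 * L2 ^ 4).natDegree ≤ N + 4 :=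
    natDegree_mul_le.trans (add_le_add (hdeg B) hL4)
  refine (Lat_aux d hd p q _ _ (N + 4) hp hq (hdA.trans (by omega)) hdB).2 c e hce fun x hx => ?_
  have eA : ∀ Z : K × K, hev (N + 4) (C (D ^ 2) * hc N A L1 L2) Z =
      D ^ 2 * hev N A (Ph a b c e Z) * Z.2 ^ 4 := by
    intro Z
    rw [hev_pad N 4 _ hdA, hev_C_mul, hev_lin]
  have eB : ∀ Z : K × K, hev (N + 4) (hc N B L1 L2 * L2 ^ 4) Z =
      hev N B (Ph a b c e Z) * (Ph a b c e Z).2 ^ 4 := by
    intro Z
    rw [hev_mulF N 4 _ _ (hdeg B) hL4, hev_lin, hL2, hev_linpow]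
    rfl
  set Z : K × K := (x, 1) with hZ
  have hZ0 : Z ≠ 0 := fun h => one_ne_zero (congrArg Prod.snd h)
  have hY2 : (Ph a b c e Z).2 ≠ 0 := by
    have : (Ph a b c e Z).2 = c * x + e := by
      unfold Ph
      simp [hZ]
    rw [this]
    exact hx
  have h1 := hAB' (Ph a b c e Z) hY2
  rw [hconj Z, WH_conj d hd p q u w hp hq hu hw a b c e s hdet hconj Z hZ0, hev_smul,
    hev_smul] at h1
  have h2 : hev d w (Ph a b c e Z) = s * (Ph a b c e (FH d p q Z)).2 := by
    have := congrArg Prod.snd (hconj Z)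
    exact this
  rw [h2] at h1
  rw [eA, eB, eA, eB]
  have h3 : (FH d p q Z).2 = hev d q Z := rfl
  have h4 : Z.2 = 1 := rfl
  rw [h3, h4]
  have hsN : s ^ N * s ^ 4 ≠ 0 := mul_ne_zero (pow_ne_zero _ hs) (pow_ne_zero _ hs)
  apply mul_left_cancel₀ hsN
  linear_combination (D ^ 2 * hev d q Z ^ 4) * h1

end

end Pool.Agent.E8helper71.MC
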