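import Pool.Agent.E8helper88.Mul.Norm

/-!
# Good reduction: a critical point which is periodic modulo the maximal ideal is close to a
periodic point
-/

set_option autoImplicit false
set_option linter.unusedSectionVars false

namespace Pool.Agent.E8helper71.MC

open Polynomial Finset
open Pool.Agent.W277.UH Pool.Agent.E8helper88.Mul

section
variable {Ω : Type*} [NormedField Ω] [IsUltrametricDist Ω]

/-- the norm of a vector -/
def nv (Z : Ω × Ω) : ℝ := max ‖Z.1‖ ‖Z.2‖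

/-- polynomials with integral coefficients -/
def IP (f : (Polynomial Ω)) : Prop := ∀ i, ‖f.coeff i‖ ≤ 1

lemma norm_sum_le_one {ι : Type*} (s : Finset ι) (f : ι → Ω) {r : ℝ} (hr : 0 ≤ r)
    (h : ∀ i ∈ s, ‖f i‖ ≤ r) : ‖∑ i ∈ s, f i‖ ≤ r :=
  IsUltrametricDist.norm_sum_le_of_forall_le_of_nonneg hr h

lemma norm_add_le_max' (a b : Ω) : ‖a + b‖ ≤ max ‖a‖ ‖b‖ := IsUltrametricDist.norm_add_le_max a b

lemma norm_sub_le_max' (a b : Ω) : ‖a - b‖ ≤ max ‖a‖ ‖b‖ := by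
  rw [sub_eq_add_neg]
  have := IsUltrametricDist.norm_add_le_max a (-b)
  rwa [norm_neg] at this

lemma norm_sub_eq_of_lt {a b : Ω} (h : ‖a‖ < ‖b‖) : ‖a - b‖ = ‖b‖ := by
  apply le_antisymm
  · exact (norm_sub_le_max' a b).trans (max_le h.le le_rfl)
  · have h1 : b = a - (a - b) := by ring
    have h2 := norm_sub_le_max' a (a - b)
    rw [← h1] at h2
    rcases le_max_iff.1 h2 with h3 | h3
    · linarith
    · exact h3

lemma mul_close {a b a' b' : Ω} {r : ℝ} (ha : ‖a‖ ≤ 1) (hb' : ‖b'‖ ≤ 1) (h1 : ‖a - a'‖ ≤ r)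
    (h2 : ‖b - b'‖ ≤ r) : ‖a * b - a' * b'‖ ≤ r := by
  have e : a * b - a' * b' = a * (b - b') + (a - a') * b' := by ring
  rw [e]
  refine (norm_add_le_max' _ _).trans (max_le ?_ ?_)
  · rw [norm_mul]
    calc ‖a‖ * ‖b - b'‖ ≤ 1 * ‖b - b'‖ := mul_le_mul_of_nonneg_right ha (norm_nonneg _)
      _ ≤ r := by rw [one_mul]; exact h2
  · rw [norm_mul]
    calc ‖a - a'‖ * ‖b'‖ ≤ ‖a - a'‖ * 1 := mul_le_mul_of_nonneg_left hb' (norm_nonneg _)
      _ ≤ r := by rw [mul_one]; exact h1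

lemma pow_close {a a' : Ω} {r : ℝ} (hr : 0 ≤ r) (ha : ‖a‖ ≤ 1) (ha' : ‖a'‖ ≤ 1) (h : ‖a - a'‖ ≤ r)
    (n : ℕ) : ‖a ^ n - a' ^ n‖ ≤ r := by
  induction n with
  | zero => simpa using hr
  | succ n ih =>
    rw [pow_succ, pow_succ]
    refine mul_close ?_ ha' ih h
    rw [norm_pow]
    exact pow_le_one₀ (norm_nonneg _) ha

lemma hev_close (d : ℕ) (p : (Polynomial Ω)) (hp : IP p) {Z V : Ω × Ω} (hZ : nv Z ≤ 1) (hV : nv V ≤ 1) {r : ℝ}
    (h1 : ‖Z.1 - V.1‖ ≤ r) (h2 : ‖Z.2 - V.2‖ ≤ r) : ‖hev d p Z - hev d p V‖ ≤ r := by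
  have hr : 0 ≤ r := (norm_nonneg _).trans h1
  have z1 : ‖Z.1‖ ≤ 1 := (le_max_left _ _).trans hZ
  have z2 : ‖Z.2‖ ≤ 1 := (le_max_right _ _).trans hZ
  have v1 : ‖V.1‖ ≤ 1 := (le_max_left _ _).trans hV
  have v2 : ‖V.2‖ ≤ 1 := (le_max_right _ _).trans hV
  unfold hev
  rw [← Finset.sum_sub_distrib]
  refine norm_sum_le_one _ _ hr fun i _ => ?_
  rw [mul_assoc, mul_assoc, ← mul_sub, norm_mul]
  have h3 : ‖Z.1 ^ i * Z.2 ^ (d - i) - V.1 ^ i * V.2 ^ (d - i)‖ ≤ r := by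
    refine mul_close ?_ ?_ (pow_close hr z1 v1 h1 i) (pow_close hr z2 v2 h2 _)
    · rw [norm_pow]; exact pow_le_one₀ (norm_nonneg _) z1
    · rw [norm_pow]; exact pow_le_one₀ (norm_nonneg _) v2
  calc ‖p.coeff i‖ * ‖Z.1 ^ i * Z.2 ^ (d - i) - V.1 ^ i * V.2 ^ (d - i)‖ ≤
        1 * ‖Z.1 ^ i * Z.2 ^ (d - i) - V.1 ^ i * V.2 ^ (d - i)‖ :=
        mul_le_mul_of_nonneg_right (hp i) (norm_nonneg _)
    _ ≤ r := by rw [one_mul]; exact h3

lemma hev_int (d : ℕ) (p : (Polynomial Ω)) (hp : IP p) {Z : Ω × Ω} (hZ : nv Z ≤ 1) : ‖hev d p Z‖ ≤ 1 := by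
  have z1 : ‖Z.1‖ ≤ 1 := (le_max_left _ _).trans hZ
  have z2 : ‖Z.2‖ ≤ 1 := (le_max_right _ _).trans hZ
  unfold hev
  refine norm_sum_le_one _ _ zero_le_one fun i _ => ?_
  rw [norm_mul, norm_mul, norm_pow, norm_pow]
  exact mul_le_one₀ (mul_le_one₀ (hp i) (by positivity) (pow_le_one₀ (norm_nonneg _) z1))
    (by positivity) (pow_le_one₀ (norm_nonneg _) z2)

lemma IP_add {f g : (Polynomial Ω)} (hf : IP f) (hg : IP g) : IP (f + g) := fun i => by
  rw [coeff_add]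
  exact (norm_add_le_max' _ _).trans (max_le (hf i) (hg i))

lemma IP_sub {f g : (Polynomial Ω)} (hf : IP f) (hg : IP g) : IP (f - g) := fun i => by
  rw [coeff_sub]
  exact (norm_sub_le_max' _ _).trans (max_le (hf i) (hg i))

lemma IP_mul {f g : (Polynomial Ω)} (hf : IP f) (hg : IP g) : IP (f * g) := fun i => by
  rw [coeff_mul]
  refine norm_sum_le_one _ _ zero_le_one fun x _ => ?_
  rw [norm_mul]
  exact mul_le_one₀ (hf _) (norm_nonneg _) (hg _)

lemma IP_C {a : Ω} (ha : ‖a‖ ≤ 1) : IP (C a) := fun i => by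
  rw [coeff_C]
  split_ifs
  · exact ha
  · rw [norm_zero]; exact zero_le_one

lemma IP_one : IP (1 : (Polynomial Ω)) := by
  have := IP_C (a := (1 : Ω)) (by rw [norm_one])
  rwa [C_1] at this

lemma IP_X : IP (X : (Polynomial Ω)) := fun i => by
  rw [coeff_X]
  split_ifs
  · rw [norm_one]
  · rw [norm_zero]; exact zero_le_one

lemma IP_pow {f : (Polynomial Ω)} (hf : IP f) (n : ℕ) : IP (f ^ n) := by
  induction n with
  | zero => rw [pow_zero]; exact IP_one
  | succ n ih => rw [pow_succ]; exact IP_mul ih hf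

lemma IP_sum {ι : Type*} (s : Finset ι) (f : ι → (Polynomial Ω)) (h : ∀ i ∈ s, IP (f i)) :
    IP (∑ i ∈ s, f i) := fun i => by
  rw [finsetSum_coeff]
  exact norm_sum_le_one _ _ zero_le_one fun j hj => h j hj i

lemma IP_der {f : (Polynomial Ω)} (hf : IP f) : IP (derivative f) := fun i => by
  rw [coeff_derivative, norm_mul]
  have h1 : ‖((i : Ω) + 1)‖ ≤ 1 := by
    have := IsUltrametricDist.norm_natCast_le_one Ω (i + 1)
    push_cast at this
    exact this
  exact mul_le_one₀ (hf _) (norm_nonneg _) h1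

lemma IP_wr {f g : (Polynomial Ω)} (hf : IP f) (hg : IP g) : IP (wr f g) := by
  unfold wr
  exact IP_sub (IP_mul (IP_der hf) hg) (IP_mul hf (IP_der hg))

lemma IP_eval {f : (Polynomial Ω)} (hf : IP f) {x : Ω} (hx : ‖x‖ ≤ 1) : ‖f.eval x‖ ≤ 1 := by
  rw [eval_eq_sum_range]
  refine norm_sum_le_one _ _ zero_le_one fun i _ => ?_
  rw [norm_mul, norm_pow]
  exact mul_le_one₀ (hf i) (by positivity) (pow_le_one₀ (norm_nonneg _) hx)

lemma IP_hc (d : ℕ) {p A B : (Polynomial Ω)} (hp : IP p) (hA : IP A) (hB : IP B) : IP (hc d p A B) := by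
  unfold hc hev
  refine IP_sum _ _ fun i _ => ?_
  rw [coeff_map]
  exact IP_mul (IP_mul (IP_C (hp i)) (IP_pow hA i)) (IP_pow hB _)

lemma IP_itP (d : ℕ) {p q : (Polynomial Ω)} (hp : IP p) (hq : IP q) (n : ℕ) :
    IP (itP d p q n).1 ∧ IP (itP d p q n).2 := by
  induction n with
  | zero => exact ⟨IP_X, IP_one⟩
  | succ n ih => exact ⟨IP_hc d hp ih.1 ih.2, IP_hc d hq ih.1 ih.2⟩

/-- a root close to zero -/
lemma small_root [IsAlgClosed Ω] (φ : (Polynomial Ω)) (h : ‖φ.eval 0‖ < ‖(derivative φ).eval 0‖) :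
    ∃ x : Ω, ‖x‖ < 1 ∧ φ.eval x = 0 := by
  by_cases h0 : φ.eval 0 = 0
  · exact ⟨0, by rw [norm_zero]; exact one_pos, h0⟩
  by_contra hcon
  push Not at hcon
  have hφ : φ ≠ 0 := by
    rintro rfl
    simp at h0
  have h1 := (IsAlgClosed.splits φ).eval_derivative_div_eval_of_ne_zero h0
  have h2 : ‖(φ.roots.map fun z => 1 / (0 - z)).sum‖ ≤ 1 := by
    have key : ∀ s : Multiset Ω, (∀ z ∈ s, 1 ≤ ‖z‖) → ‖(s.map fun z => 1 / (0 - z)).sum‖ ≤ 1 := by
      intro s
      induction s using Multiset.induction_on with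
      | empty => intro _; simp
      | cons a s ih =>
        intro hs
        rw [Multiset.map_cons, Multiset.sum_cons]
        refine (norm_add_le_max' _ _).trans (max_le ?_ (ih fun z hz => hs z (Multiset.mem_cons_of_mem hz)))
        rw [zero_sub, norm_div, norm_one, norm_neg]
        have := hs a (Multiset.mem_cons_self a s)
        rw [div_le_one (by linarith)]
        exact this
    refine key _ fun z hz => ?_
    by_contra hz1
    push Not at hz1
    exact hcon z hz1 ((mem_roots hφ).1 hz)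
  rw [← h1, norm_div, div_le_one (norm_pos_iff.2 h0)] at h2
  linarith

/-- the iterates preserve vectors of norm one -/
lemma iter_nv (d : ℕ) (p q : (Polynomial Ω)) (hG : ∀ Z : Ω × Ω, nv Z = 1 → nv (FH d p q Z) = 1) (n : ℕ)
    (Z : Ω × Ω) (hZ : nv Z = 1) : nv ((FH d p q)^[n] Z) = 1 := by
  induction n with
  | zero => exact hZ
  | succ n ih => rw [Function.iterate_succ_apply']; exact hG _ ih

/-- **the local lemma** -/
theorem per [IsAlgClosed Ω] [CharZero Ω] (d : ℕ) (hd : 1 ≤ d) (p q : (Polynomial Ω)) (hp : p.natDegree ≤ d)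
    (hq : q.natDegree ≤ d) (ip : IP p) (iq : IP q)
    (hG : ∀ Z : Ω × Ω, nv Z = 1 → nv (FH d p q Z) = 1) (hcrit : WH d p q (0, 1) = 0) (N : ℕ)
    (hN : 1 ≤ N) (h : ‖((FH d p q)^[N] (0, 1)).1‖ < 1) :
    ∃ x : Ω, ‖x‖ < 1 ∧ (itP d p q N).1.eval x = x * (itP d p q N).2.eval x := by
  set A := (itP d p q N).1 with hA
  set B := (itP d p q N).2 with hB
  have he := itP_eval d p q N 0
  rw [← hA, ← hB] at he
  have h1 : ‖A.eval 0‖ < 1 := by
    rw [← he] at h
    exact h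
  have h2 : ‖B.eval 0‖ = 1 := by
    have h3 := iter_nv d p q hG N (0, 1) (by simp [nv])
    rw [← he] at h3
    unfold nv at h3
    simp only at h3
    rcases max_choice ‖A.eval 0‖ ‖B.eval 0‖ with h4 | h4
    · rw [h4] at h3
      linarith
    · rw [h4] at h3
      exact h3
  have h3 : (derivative A).eval 0 * B.eval 0 - A.eval 0 * (derivative B).eval 0 = 0 := by
    rw [← wr_eval, hA, hB, itP_wr d hd p q hp hq N 0]
    exact Finset.prod_eq_zero (Finset.mem_range.2 hN) (by simpa using hcrit)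
  have hIP := IP_itP d ip iq N
  rw [← hA, ← hB] at hIP
  have h4 : ‖(derivative A).eval 0‖ < 1 := by
    have e : (derivative A).eval 0 * B.eval 0 = A.eval 0 * (derivative B).eval 0 := by
      linear_combination h3
    have e2 := congrArg norm e
    rw [norm_mul, norm_mul, h2, mul_one] at e2
    rw [e2]
    have h5 : ‖(derivative B).eval 0‖ ≤ 1 := IP_eval (IP_der hIP.2) (by rw [norm_zero]; exact zero_le_one)
    calc ‖A.eval 0‖ * ‖(derivative B).eval 0‖ ≤ ‖A.eval 0‖ * 1 :=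
          mul_le_mul_of_nonneg_left h5 (norm_nonneg _)
      _ < 1 := by rw [mul_one]; exact h1
  have h5 : (derivative (A - X * B)).eval 0 = (derivative A).eval 0 - B.eval 0 := by
    simp
  have h6 : (A - X * B).eval 0 = A.eval 0 := by simp
  obtain ⟨x, hx, hx0⟩ := small_root (A - X * B) (by
    rw [h5, h6, norm_sub_eq_of_lt (by rw [h2]; exact h4), h2]
    exact h1)
  refine ⟨x, hx, ?_⟩
  rw [eval_sub, eval_mul, eval_X] at hx0
  linear_combination hx0

end

end Pool.Agent.E8helper71.MC
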