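import Pool.Agent.E8helper71.MC.Red

/-!
# The critical orbit is integral with respect to its first three backward points
-/

set_option autoImplicit false
set_option linter.unusedSectionVars false
set_option linter.style.haveILetI false

namespace Pool.Agent.E8helper71.MC

open Polynomial Finset
open Pool.Agent.W277.UH Pool.Agent.E8helper88.Mul

universe u w

section
variable {K : Type u} [Field K] [CharZero K]

lemma IP_prod {Ω : Type w} [NormedField Ω] [IsUltrametricDist Ω] (s : Finset ℕ) (f : ℕ → Ω)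
    (h : ∀ i ∈ s, ‖f i‖ ≤ 1) : ‖∏ i ∈ s, f i‖ ≤ 1 := by
  rw [norm_prod]
  exact Finset.prod_le_one (fun i _ => norm_nonneg _) h

theorem no_return {k : Type*} [Field k] [Algebra k K] (Ωa : Type*) [Field Ωa] [IsAlgClosed Ωa]
    [Algebra K Ωa] [Algebra.IsAlgebraic K Ωa] (d : ℕ) (hd : 2 ≤ d) (p q : Polynomial K)
    (hmax : max p.natDegree q.natDegree = d) (hco : IsCoprime p q) (hsp : (wr p q).Splits)
    (hcrit : WH d p q (0, 1) = 0)
    (hinf : ∀ m n, m < n → wd ((FH d p q)^[m] (0, 1)) ((FH d p q)^[n] (0, 1)) ≠ 0)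
    (hmul : ∀ n, 1 ≤ n → ∀ lam : Ωa, IsMul d (p.map (algebraMap K Ωa)) (q.map (algebraMap K Ωa)) n
      lam → ∃ c : k, lam = algebraMap K Ωa (algebraMap k K c))
    {Ω : Type w} [NormedField Ω] [IsUltrametricDist Ω] [IsAlgClosed Ω] (ι : K →+* Ω)
    (ip : IP (p.map ι)) (iq : IP (q.map ι))
    (hG : ∀ Z : Ω × Ω, nv Z = 1 → nv (FH d (p.map ι) (q.map ι) Z) = 1)
    (hcst : ∀ c : k, c ≠ 0 → ‖ι (algebraMap k K c)‖ = 1)
    (hE : ∀ e ∈ cyc d p q (crv p q), (e.1 ≠ 0 → ‖ι e.1‖ = 1) ∧ (e.2 ≠ 0 → ‖ι e.2‖ = 1))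
    (N : ℕ) (hN : 1 ≤ N) : ¬ ‖ι ((FH d p q)^[N] (0, 1)).1‖ < 1 := by
  classical
  intro hlt
  have hp : p.natDegree ≤ d := hmax ▸ le_max_left _ _
  have hq : q.natDegree ≤ d := hmax ▸ le_max_right _ _
  haveI : CharZero Ω := charZero_of_injective_ringHom ι.injective
  haveI : CharZero Ωa := charZero_of_injective_algebraMap (algebraMap K Ωa).injective
  have hv01 : ∀ {L : Type w} [Field L] (φ : K →+* L), vh φ ((0, 1) : K × K) = (0, 1) := by
    intro L _ φ
    unfold vh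
    simp
  obtain ⟨x, hx, hxe⟩ := per d (by omega) (p.map ι) (q.map ι) (natDegree_map_le.trans hp)
    (natDegree_map_le.trans hq) ip iq hG
    (by
      rw [← hv01 ι, WH_hom, hcrit, map_zero]) N hN
    (by
      rw [← hv01 ι, FH_iter_hom]
      exact hlt)
  -- the point is algebraic over K
  letI : Algebra K Ω := ι.toAlgebra
  set ψ : Ωa →ₐ[K] Ω := IsAlgClosed.lift with hψ
  have hψι : ∀ z : K, ψ (algebraMap K Ωa z) = ι z := fun z => ψ.commutes z
  have hψc : (ψ : Ωa →+* Ω).comp (algebraMap K Ωa) = ι := RingHom.ext hψι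
  set A0 := (itP d p q N).1 with hA0
  set B0 := (itP d p q N).2 with hB0
  have hA0e : (itP d (p.map ι) (q.map ι) N).1 = A0.map ι ∧
      (itP d (p.map ι) (q.map ι) N).2 = B0.map ι := by
    rw [itP_map]
    exact ⟨rfl, rfl⟩
  rw [hA0e.1, hA0e.2] at hxe
  have hG0 : A0 - X * B0 ≠ 0 := by
    intro h
    have h1 := congrArg (eval 0) h
    simp only [eval_sub, eval_mul, eval_X, zero_mul, sub_zero, eval_zero] at h1
    have h2 := hinf 0 N (by omega)
    apply h2
    rw [Function.iterate_zero, id_eq, ← itP_eval]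
    unfold wd
    simp only [zero_mul, one_mul, zero_sub, neg_eq_zero]
    exact h1
  have hroot : ((A0 - X * B0).map ι).eval x = 0 := by
    rw [Polynomial.map_sub, Polynomial.map_mul, Polynomial.map_X, eval_sub, eval_mul, eval_X, hxe,
      sub_self]
  obtain ⟨y, hy⟩ : ∃ y : Ωa, (ψ : Ωa →+* Ω) y = x := by
    have h1 : ((A0 - X * B0).map (algebraMap K Ωa)).Splits := IsAlgClosed.splits _
    have h2 : (((A0 - X * B0).map (algebraMap K Ωa)).map (ψ : Ωa →+* Ω)).eval x = 0 := by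
      rw [Polynomial.map_map, hψc]
      exact hroot
    exact h1.mem_range_of_isRoot ((Polynomial.map_ne_zero_iff (algebraMap K Ωa).injective).mpr hG0)
      h2
  set pa := p.map (algebraMap K Ωa) with hpa
  set qa := q.map (algebraMap K Ωa) with hqa
  have hpam : pa.map (ψ : Ωa →+* Ω) = p.map ι := by rw [hpa, Polynomial.map_map, hψc]
  have hqam : qa.map (ψ : Ωa →+* Ω) = q.map ι := by rw [hqa, Polynomial.map_map, hψc]
  have hmaxa : max pa.natDegree qa.natDegree = d := max_map _ p q d hmax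
  have hcoa : IsCoprime pa qa := (Polynomial.isCoprime_map _).mpr hco
  have hxy : vh (ψ : Ωa →+* Ω) (y, 1) = (x, 1) := by
    unfold vh
    rw [hy, map_one]
  -- the vector over Ω
  have hx1 : nv ((x, 1) : Ω × Ω) = 1 := by
    unfold nv
    simp only [norm_one]
    exact max_eq_right hx.le
  have hitx : (FH d (p.map ι) (q.map ι))^[N] (x, 1) = ((B0.map ι).eval x) • (x, 1) := by
    rw [← itP_eval, hA0e.1, hA0e.2, hxe]
    refine Prod.ext ?_ ?_
    · simp only [Prod.smul_fst, smul_eq_mul]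
      ring
    · simp
  have hBx : (B0.map ι).eval x = (ψ : Ωa →+* Ω) ((B0.map (algebraMap K Ωa)).eval y) := by
    rw [← eval_map_apply, Polynomial.map_map, hψc, hy]
  set μ : Ωa := (B0.map (algebraMap K Ωa)).eval y with hμ
  have hity : (FH d pa qa)^[N] (y, 1) = μ • (y, 1) := by
    have h1 : vh (ψ : Ωa →+* Ω) ((FH d pa qa)^[N] (y, 1)) =
        vh (ψ : Ωa →+* Ω) (μ • (y, 1)) := by
      rw [← FH_iter_hom, hpam, hqam, hxy, hitx, hBx]
      unfold vh
      refine Prod.ext ?_ ?_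
      · simp only [Prod.smul_fst, smul_eq_mul, map_mul, hy]
      · simp
    have h2 : Function.Injective (vh (ψ : Ωa →+* Ω)) := by
      intro a b hab
      have e1 := congrArg Prod.fst hab
      have e2 := congrArg Prod.snd hab
      exact Prod.ext ((ψ : Ωa →+* Ω).injective e1) ((ψ : Ωa →+* Ω).injective e2)
    exact h2 h1
  have hy1 : ((y, 1) : Ωa × Ωa) ≠ 0 := fun h => one_ne_zero (congrArg Prod.snd h)
  have hμ0 : μ ≠ 0 := by
    intro h
    rw [h, zero_smul] at hity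
    exact FH_iter_nz d (by omega) pa qa hmaxa hcoa N (y, 1) hy1 hity
  -- the multiplier
  set P : Ωa := ∏ j ∈ range N, WH d pa qa ((FH d pa qa)^[j] (y, 1)) with hP
  obtain ⟨c, hc⟩ := hmul N hN (P / μ ^ 2) ⟨(y, 1), hy1, μ, hμ0, hity, by
    rw [div_mul_cancel₀ _ (pow_ne_zero 2 hμ0)]⟩
  have hnμ : ‖(ψ : Ωa →+* Ω) μ‖ = 1 := by
    have h1 := iter_nv d (p.map ι) (q.map ι) hG N (x, 1) hx1
    rw [hitx, hBx] at h1
    unfold nv at h1
    simp only [Prod.smul_fst, Prod.smul_snd, smul_eq_mul, mul_one, norm_mul] at h1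
    have h2 : ‖(ψ : Ωa →+* Ω) μ‖ * ‖x‖ ≤ ‖(ψ : Ωa →+* Ω) μ‖ := by
      calc _ ≤ ‖(ψ : Ωa →+* Ω) μ‖ * 1 := mul_le_mul_of_nonneg_left hx.le (norm_nonneg _)
        _ = _ := mul_one _
    rw [max_eq_right h2] at h1
    exact h1
  have hψP : (ψ : Ωa →+* Ω) P =
      ∏ j ∈ range N, WH d (p.map ι) (q.map ι) ((FH d (p.map ι) (q.map ι))^[j] (x, 1)) := by
    rw [hP, map_prod]
    refine Finset.prod_congr rfl fun j _ => ?_
    rw [← WH_hom, ← FH_iter_hom, hpam, hqam, hxy]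
  have hnP : ‖(ψ : Ωa →+* Ω) P‖ < 1 := by
    rw [hψP]
    obtain ⟨M, rfl⟩ : ∃ M, N = M + 1 := ⟨N - 1, by omega⟩
    rw [Finset.prod_range_succ', norm_mul]
    have iw := IP_wr ip iq
    have h1 : ‖∏ j ∈ range M, WH d (p.map ι) (q.map ι)
        ((FH d (p.map ι) (q.map ι))^[j + 1] (x, 1))‖ ≤ 1 := by
      refine IP_prod _ _ fun j _ => ?_
      exact hev_int _ _ iw (iter_nv d (p.map ι) (q.map ι) hG (j + 1) (x, 1) hx1).le
    have h2 : ‖WH d (p.map ι) (q.map ι) ((FH d (p.map ι) (q.map ι))^[0] (x, 1))‖ < 1 := by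
      rw [Function.iterate_zero, id_eq]
      have h3 : WH d (p.map ι) (q.map ι) (0, 1) = 0 := by
        rw [← hv01 ι, WH_hom, hcrit, map_zero]
      have h4 : ‖WH d (p.map ι) (q.map ι) (x, 1) - WH d (p.map ι) (q.map ι) (0, 1)‖ ≤ ‖x‖ := by
        refine hev_close _ _ iw hx1.le (by unfold nv; simp) ?_ ?_
        · simp
        · simp
      rw [h3, sub_zero] at h4
      exact lt_of_le_of_lt h4 hx
    calc _ ≤ 1 * ‖WH d (p.map ι) (q.map ι) ((FH d (p.map ι) (q.map ι))^[0] (x, 1))‖ :=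
          mul_le_mul_of_nonneg_right h1 (norm_nonneg _)
      _ < 1 := by rw [one_mul]; exact h2
  have hc0 : c = 0 := by
    by_contra hc0
    have h1 := congrArg (fun z => ‖(ψ : Ωa →+* Ω) z‖) hc
    simp only [map_div₀, map_pow, norm_div, norm_pow, hnμ, one_pow, div_one] at h1
    have h2 : (ψ : Ωa →+* Ω) (algebraMap K Ωa (algebraMap k K c)) = ι (algebraMap k K c) :=
      hψι _
    rw [h2, hcst c hc0] at h1
    rw [h1] at hnP
    exact lt_irrefl _ hnP
  rw [hc0, map_zero, map_zero, div_eq_zero_iff] at hc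
  have hP0 : P = 0 := hc.resolve_right (pow_ne_zero 2 hμ0)
  rw [hP, Finset.prod_eq_zero_iff] at hP0
  obtain ⟨j, hj, hj0⟩ := hP0
  rw [mem_range] at hj
  obtain ⟨e, he, hwe⟩ := cyc_crit (algebraMap K Ωa) d (by omega) p q hmax hco hsp (y, 1) hy1 N j hj
    (by rw [← hpa, ← hqa, hity, wd_smul_left', wd_self', mul_zero]) hj0
  obtain ⟨he0, n, hn, hen⟩ := cyc_mem d (by omega) p q hmax hco (crv p q) (crv_ne p q) e he
  have hee : algebraMap K Ωa e.1 = y * algebraMap K Ωa e.2 := by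
    unfold wd vh at hwe
    simp only [one_mul] at hwe
    linear_combination -hwe
  have he1 : e.1 ≠ 0 := by
    intro h1
    have h2 : e.2 ≠ 0 := fun h2 => he0 (Prod.ext h1 h2)
    apply hinf 0 n (by omega)
    rw [Function.iterate_zero, id_eq]
    have h3 : wd ((0, 1) : K × K) e = 0 := by
      unfold wd
      simp [h1]
    have h01 : ((0, 1) : K × K) ≠ 0 := fun h => one_ne_zero (congrArg Prod.snd h)
    have h4 : wd ((FH d p q)^[n] e) ((FH d p q)^[n] (0, 1)) = 0 :=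
      wd_iter d p q n h01 (wd_zero_symm h3)
    have h5 := FH_iter_nz d (by omega) p q hmax hco n e he0
    exact wd_zero_trans he0 h3 (wd_zero_trans h5 (wd_zero_symm hen) h4)
  have he2 : e.2 ≠ 0 := by
    intro h2
    rw [h2, map_zero, mul_zero, map_eq_zero] at hee
    exact he1 hee
  have h1 := congrArg (fun z => ‖(ψ : Ωa →+* Ω) z‖) hee
  simp only [map_mul, norm_mul] at h1
  have h2 : ∀ z : K, (ψ : Ωa →+* Ω) (algebraMap K Ωa z) = ι z := hψι
  rw [h2, h2, hy, (hE e he).1 he1, (hE e he).2 he2, mul_one] at h1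
  rw [← h1] at hx
  exact lt_irrefl _ hx

/-- the coordinates of the orbit and their difference are units -/
theorem orb_unit {k : Type*} [Field k] [Algebra k K] (Ωa : Type*) [Field Ωa] [IsAlgClosed Ωa]
    [Algebra K Ωa] [Algebra.IsAlgebraic K Ωa] (d : ℕ) (hd : 2 ≤ d) (p q : Polynomial K)
    (hmax : max p.natDegree q.natDegree = d) (hco : IsCoprime p q) (hsp : (wr p q).Splits)
    (hcrit : WH d p q (0, 1) = 0) (h10 : (FH d p q (1, 0)).1 = 0) (h11 : (FH d p q (1, 1)).2 = 0)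
    (hinf : ∀ m n, m < n → wd ((FH d p q)^[m] (0, 1)) ((FH d p q)^[n] (0, 1)) ≠ 0)
    (hmul : ∀ n, 1 ≤ n → ∀ lam : Ωa, IsMul d (p.map (algebraMap K Ωa)) (q.map (algebraMap K Ωa)) n
      lam → ∃ c : k, lam = algebraMap K Ωa (algebraMap k K c))
    {Ω : Type w} [NormedField Ω] [IsUltrametricDist Ω] [IsAlgClosed Ω] (ι : K →+* Ω)
    (ip : IP (p.map ι)) (iq : IP (q.map ι))
    (hG : ∀ Z : Ω × Ω, nv Z = 1 → nv (FH d (p.map ι) (q.map ι) Z) = 1)
    (hcst : ∀ c : k, c ≠ 0 → ‖ι (algebraMap k K c)‖ = 1)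
    (hE : ∀ e ∈ cyc d p q (crv p q), (e.1 ≠ 0 → ‖ι e.1‖ = 1) ∧ (e.2 ≠ 0 → ‖ι e.2‖ = 1))
    (N : ℕ) (hN : 1 ≤ N) : ‖ι ((FH d p q)^[N] (0, 1)).1‖ = 1 ∧
      ‖ι ((FH d p q)^[N] (0, 1)).2‖ = 1 ∧
      ‖ι (((FH d p q)^[N] (0, 1)).2 - ((FH d p q)^[N] (0, 1)).1)‖ = 1 := by
  have hA := no_return Ωa d hd p q hmax hco hsp hcrit hinf hmul ι ip iq hG hcst hE
  have hv01 : vh ι ((0, 1) : K × K) = (0, 1) := by
    unfold vh
    simp
  have hnv : ∀ n, nv (vh ι ((FH d p q)^[n] (0, 1))) = 1 := by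
    intro n
    rw [← FH_iter_hom, hv01]
    exact iter_nv d _ _ hG n _ (by unfold nv; simp)
  have hstep : ∀ n, vh ι ((FH d p q)^[n + 1] (0, 1)) =
      FH d (p.map ι) (q.map ι) (vh ι ((FH d p q)^[n] (0, 1))) := by
    intro n
    rw [Function.iterate_succ_apply', FH_hom]
  have hB : ∀ n, 1 ≤ n → ¬ ‖ι ((FH d p q)^[n] (0, 1)).2‖ < 1 := by
    intro n hn h
    set Z := vh ι ((FH d p q)^[n] (0, 1)) with hZ
    have h2 : Z.2 = ι ((FH d p q)^[n] (0, 1)).2 := rfl
    have h3 : ‖hev d (p.map ι) Z - hev d (p.map ι) (Z.1, 0)‖ ≤ ‖Z.2‖ := by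
      refine hev_close d _ ip (hnv n).le ?_ ?_ ?_
      · refine max_le ((le_max_left _ _).trans (hnv n).le) ?_
        rw [norm_zero]
        exact zero_le_one
      · show ‖Z.1 - Z.1‖ ≤ ‖Z.2‖
        rw [sub_self, norm_zero]
        exact norm_nonneg _
      · show ‖Z.2 - 0‖ ≤ ‖Z.2‖
        rw [sub_zero]
    have h4 : hev d (p.map ι) (Z.1, 0) = 0 := by
      have h5 : ((Z.1, 0) : Ω × Ω) = Z.1 • (1, 0) := by
        refine Prod.ext ?_ ?_ <;> simp
      have h6 : hev d (p.map ι) (1, 0) = 0 := by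
        have h7 : ((1, 0) : Ω × Ω) = vh ι (1, 0) := by
          unfold vh
          simp
        rw [h7, hev_hom]
        have : hev d p (1, 0) = 0 := h10
        rw [this, map_zero]
      rw [h5, hev_smul, h6, mul_zero]
    rw [h4, sub_zero] at h3
    apply hA (n + 1) (by omega)
    have h8 : ι ((FH d p q)^[n + 1] (0, 1)).1 = hev d (p.map ι) Z := by
      have := congrArg Prod.fst (hstep n)
      exact this
    rw [h8]
    exact lt_of_le_of_lt h3 (h2 ▸ h)
  have hC : ∀ n, 1 ≤ n →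
      ¬ ‖ι (((FH d p q)^[n] (0, 1)).2 - ((FH d p q)^[n] (0, 1)).1)‖ < 1 := by
    intro n hn h
    set Z := vh ι ((FH d p q)^[n] (0, 1)) with hZ
    have h2 : Z.2 - Z.1 = ι (((FH d p q)^[n] (0, 1)).2 - ((FH d p q)^[n] (0, 1)).1) := by
      rw [map_sub]
      rfl
    have h3 : ‖hev d (q.map ι) Z - hev d (q.map ι) (Z.2, Z.2)‖ ≤ ‖Z.2 - Z.1‖ := by
      refine hev_close d _ iq (hnv n).le ?_ ?_ ?_
      · exact max_le ((le_max_right _ _).trans (hnv n).le) ((le_max_right _ _).trans (hnv n).le)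
      · show ‖Z.1 - Z.2‖ ≤ ‖Z.2 - Z.1‖
        rw [norm_sub_rev]
      · show ‖Z.2 - Z.2‖ ≤ ‖Z.2 - Z.1‖
        rw [sub_self, norm_zero]
        exact norm_nonneg _
    have h4 : hev d (q.map ι) (Z.2, Z.2) = 0 := by
      have h5 : ((Z.2, Z.2) : Ω × Ω) = Z.2 • (1, 1) := by
        refine Prod.ext ?_ ?_ <;> simp
      have h6 : hev d (q.map ι) (1, 1) = 0 := by
        have h7 : ((1, 1) : Ω × Ω) = vh ι (1, 1) := by
          unfold vh
          simp
        rw [h7, hev_hom]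
        have : hev d q (1, 1) = 0 := h11
        rw [this, map_zero]
      rw [h5, hev_smul, h6, mul_zero]
    rw [h4, sub_zero] at h3
    apply hB (n + 1) (by omega)
    have h8 : ι ((FH d p q)^[n + 1] (0, 1)).2 = hev d (q.map ι) Z := by
      have := congrArg Prod.snd (hstep n)
      exact this
    rw [h8]
    rw [← h2] at h
    exact lt_of_le_of_lt h3 h
  have hN1 : ‖ι ((FH d p q)^[N] (0, 1)).1‖ ≤ 1 := (le_max_left _ _).trans (hnv N).le
  have hN2 : ‖ι ((FH d p q)^[N] (0, 1)).2‖ ≤ 1 := (le_max_right _ _).trans (hnv N).le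
  refine ⟨le_antisymm hN1 (not_lt.mp (hA N hN)), le_antisymm hN2 (not_lt.mp (hB N hN)),
    le_antisymm ?_ (not_lt.mp (hC N hN))⟩
  rw [map_sub]
  exact (norm_sub_le_max' _ _).trans (max_le hN2 hN1)

end

end Pool.Agent.E8helper71.MC
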