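import Pool.Agent.E8helper71.MC.RH

/-!
# Preperiodic vectors: there are infinitely many
-/

set_option autoImplicit false
set_option linter.unusedSectionVars false
set_option linter.style.haveILetI false

namespace Pool.Agent.E8helper71.MC

open Polynomial Finset
open Pool.Agent.W277.UH Pool.Agent.E8helper88.Mul
open Pool.Agent.Y676.CH Pool.Agent.Y706.CH Pool.Agent.Y195.CH

universe u v w

section
variable {K : Type u} [Field K]

/-- preperiodic vectors -/
def PP (d : ℕ) (p q : Polynomial K) (Z : K × K) : Prop :=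
  ∃ m n, m < n ∧ wd ((FH d p q)^[m] Z) ((FH d p q)^[n] Z) = 0

lemma PP_wd (d : ℕ) (hd : 1 ≤ d) (p q : Polynomial K) (hmax : max p.natDegree q.natDegree = d)
    (hco : IsCoprime p q) (Z V : K × K) (hZ : Z ≠ 0) (hV : V ≠ 0) (h : wd V Z = 0)
    (hp : PP d p q Z) : PP d p q V := by
  obtain ⟨m, n, hmn, h1⟩ := hp
  refine ⟨m, n, hmn, ?_⟩
  have h2 := wd_iter d p q m hZ h
  have h3 := wd_iter d p q n hV (wd_zero_symm h)
  exact wd_zero_trans (FH_iter_nz d hd p q hmax hco m Z hZ) h2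
    (wd_zero_trans (FH_iter_nz d hd p q hmax hco n Z hZ) h1 h3)

lemma PP_pre (d : ℕ) (hd : 1 ≤ d) (p q : Polynomial K) (hmax : max p.natDegree q.natDegree = d)
    (hco : IsCoprime p q) (Z V : K × K) (hZ : Z ≠ 0) (hV : V ≠ 0) (h : wd (FH d p q V) Z = 0)
    (hp : PP d p q Z) : PP d p q V := by
  have h1 := PP_wd d hd p q hmax hco Z (FH d p q V) hZ (FH_nz d hd p q hmax hco V hV) h hp
  obtain ⟨m, n, hmn, h2⟩ := h1
  refine ⟨m + 1, n + 1, by omega, ?_⟩
  rw [Function.iterate_succ_apply, Function.iterate_succ_apply]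
  exact h2

lemma PP_conj (d : ℕ) (p q u w : Polynomial K) (a b c e s : K) (hdet : a * e - b * c ≠ 0)
    (hs : s ≠ 0) (h : ∀ Z, FH d u w (Ph a b c e Z) = s • Ph a b c e (FH d p q Z)) (Z Z' : K × K)
    (t : K) (ht : t ≠ 0) (hZ : Ph a b c e Z = t • Z') : PP d u w Z' ↔ PP d p q Z := by
  constructor
  · rintro ⟨m, n, hmn, h1⟩
    exact ⟨m, n, hmn, (wd_conj d p q u w a b c e s hdet hs h m n Z Z Z' Z' t t ht ht hZ hZ).mp h1⟩
  · rintro ⟨m, n, hmn, h1⟩
    exact ⟨m, n, hmn, (wd_conj d p q u w a b c e s hdet hs h m n Z Z Z' Z' t t ht ht hZ hZ).mpr h1⟩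

theorem inf_pp [IsAlgClosed K] [CharZero K] (d : ℕ) (hd : 2 ≤ d) (p q : Polynomial K)
    (hmax : max p.natDegree q.natDegree = d) (hco : IsCoprime p q) :
    ∃ u w : Polynomial K, CjF d p q u w ∧ IsCoprime u w ∧ max u.natDegree w.natDegree = d ∧
      {x : K | PP d u w (x, 1)}.Infinite := by
  classical
  have hd1 : 1 ≤ d := by omega
  by_cases hall : ∀ Z : K × K, Z ≠ 0 → PP d p q Z
  · refine ⟨p, q, CjF_refl d p q, hco, hmax, ?_⟩
    have h1 : {x : K | PP d p q (x, 1)} = Set.univ := by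
      ext x
      simp only [Set.mem_ofPred_eq, Set.mem_univ, iff_true]
      exact hall _ fun h => one_ne_zero (congrArg Prod.snd h)
    rw [h1]
    exact Set.infinite_univ
  push Not at hall
  obtain ⟨be, hbe, hnp⟩ := hall
  obtain ⟨al, hal⟩ : ∃ al : K × K, wd al be ≠ 0 := by
    by_cases h2 : be.2 = 0
    · have h1 : be.1 ≠ 0 := fun h1 => hbe (Prod.ext h1 h2)
      refine ⟨(0, 1), ?_⟩
      unfold wd
      simpa using h1
    · refine ⟨(1, 0), ?_⟩
      unfold wd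
      simpa using h2
  have hga1 : wd (al + be) al ≠ 0 := by
    intro h
    apply hal
    unfold wd at h ⊢
    simp only [Prod.fst_add, Prod.snd_add] at h
    linear_combination -h
  have hga2 : wd (al + be) be ≠ 0 := by
    intro h
    apply hal
    unfold wd at h ⊢
    simp only [Prod.fst_add, Prod.snd_add] at h
    linear_combination h
  obtain ⟨u, w, a, b, c, e, s, hdet, hs, hconj, hco', hmax', -, -, ⟨t2, ht2, hbe2⟩, -⟩ :=
    exists_norm d hd1 p q hmax hco al be (al + be) hal hga1 hga2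
  refine ⟨u, w, ⟨a, b, c, e, s, hdet, hs, hconj⟩, hco', hmax', ?_⟩
  have hninf : ¬ PP d u w (1, 0) := by
    rw [PP_conj d p q u w a b c e s hdet hs hconj be (1, 0) t2 ht2 hbe2]
    exact hnp
  have hu : u.natDegree ≤ d := hmax' ▸ le_max_left _ _
  have hw : w.natDegree ≤ d := hmax' ▸ le_max_right _ _
  have h10 : ((1, 0) : K × K) ≠ 0 := fun h => one_ne_zero (congrArg Prod.fst h)
  have hx1 : ∀ x : K, ((x, 1) : K × K) ≠ 0 := fun x h => one_ne_zero (congrArg Prod.snd h)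
  intro hfin
  set E := hfin.toFinset with hE
  have hmem : ∀ x, x ∈ E ↔ PP d u w (x, 1) := fun x => by
    rw [hE, Set.Finite.mem_toFinset]
    rfl
  have hcard : E.card ≤ 2 := by
    apply rh d hd u w hmax' hco' E
    · intro x b' hb hxb
      rw [hmem] at hb ⊢
      refine PP_pre d hd1 u w hmax' hco' (b', 1) (x, 1) (hx1 _) (hx1 _) ?_ hb
      unfold FH
      rw [hev_one d u hu, hev_one d w hw]
      unfold wd
      simp only [mul_one]
      linear_combination hxb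
    · intro b' hb hcf
      apply hninf
      rw [hmem] at hb
      refine PP_pre d hd1 u w hmax' hco' (b', 1) (1, 0) (hx1 _) h10 ?_ hb
      unfold FH
      rw [hev_zero, hev_zero]
      unfold wd
      simp only [one_pow, mul_one]
      linear_combination hcf
  obtain ⟨z1, z2, z3, h12, h31, h32, g1, g2, g3⟩ := marked3 d hd u w hmax' hco'
  have hpt : ∀ Z V : K × K, wd Z V ≠ 0 → wd ((FH d u w)^[3] Z) ((FH d u w)^[2] Z) = 0 →
      Z.2 ≠ 0 ∧ Z.1 / Z.2 ∈ E := by
    intro Z V hZV h3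
    have hZ0 : Z ≠ 0 := (ne_of_wd hZV).1
    have hPP : PP d u w Z := ⟨2, 3, by omega, wd_zero_symm h3⟩
    have h2 : Z.2 ≠ 0 := by
      intro h2
      apply hninf
      refine PP_wd d hd1 u w hmax' hco' Z (1, 0) hZ0 h10 ?_ hPP
      unfold wd
      simp [h2]
    refine ⟨h2, ?_⟩
    rw [hmem]
    refine PP_wd d hd1 u w hmax' hco' Z _ hZ0 (hx1 _) ?_ hPP
    unfold wd
    simp only [one_mul]
    rw [div_mul_cancel₀ _ h2, sub_self]
  have hsw : ∀ {Z V : K × K}, wd Z V ≠ 0 → wd V Z ≠ 0 := fun h h' => h (wd_zero_symm h')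
  obtain ⟨k1, m1⟩ := hpt z1 z2 h12 g1
  obtain ⟨k2, m2⟩ := hpt z2 z1 (hsw h12) g2
  obtain ⟨k3, m3⟩ := hpt z3 z1 h31 g3
  have hdist : ∀ Z V : K × K, Z.2 ≠ 0 → V.2 ≠ 0 → wd Z V ≠ 0 → Z.1 / Z.2 ≠ V.1 / V.2 := by
    intro Z V hZ hV h h'
    apply h
    rw [div_eq_div_iff hZ hV] at h'
    unfold wd
    linear_combination h'
  have hsub : ({z1.1 / z1.2, z2.1 / z2.2, z3.1 / z3.2} : Finset K) ⊆ E := by
    intro x hx
    simp only [Finset.mem_insert, Finset.mem_singleton] at hx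
    rcases hx with rfl | rfl | rfl
    · exact m1
    · exact m2
    · exact m3
  have h3 := Finset.card_le_card hsub
  rw [Finset.card_eq_three.mpr ⟨_, _, _, hdist _ _ k1 k2 h12, hdist _ _ k1 k3 (hsw h31),
    hdist _ _ k2 k3 (hsw h32), rfl⟩] at h3
  omega

/-- a finite set of vectors which is invariant up to scaling -/
theorem exists_orb (d : ℕ) (hd : 1 ≤ d) (p q : Polynomial K)
    (hmax : max p.natDegree q.natDegree = d) (hco : IsCoprime p q) (G : Finset (K × K))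
    (hG : ∀ Z ∈ G, Z ≠ 0 ∧ PP d p q Z) :
    ∃ B : Finset (K × K), G ⊆ B ∧ (∀ Z ∈ B, Z ≠ 0) ∧
      ∀ Z ∈ B, ∃ Z' ∈ B, wd (FH d p q Z) Z' = 0 := by
  classical
  have hN : ∀ Z : K × K, ∃ N : ℕ, PP d p q Z → ∃ m, m < N ∧
      wd ((FH d p q)^[m] Z) ((FH d p q)^[N] Z) = 0 := by
    intro Z
    by_cases h : PP d p q Z
    · obtain ⟨m, n, hmn, h1⟩ := h
      exact ⟨n, fun _ => ⟨m, hmn, h1⟩⟩
    · exact ⟨0, fun h' => absurd h' h⟩
  choose N hN using hN
  refine ⟨G.biUnion fun Z => (range (N Z)).image fun i => (FH d p q)^[i] Z, ?_, ?_, ?_⟩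
  · intro Z hZ
    obtain ⟨m, hm, -⟩ := hN Z (hG Z hZ).2
    rw [mem_biUnion]
    exact ⟨Z, hZ, mem_image.mpr ⟨0, mem_range.mpr (by omega), rfl⟩⟩
  · intro Y hY
    rw [mem_biUnion] at hY
    obtain ⟨Z, hZ, hY⟩ := hY
    rw [mem_image] at hY
    obtain ⟨i, -, rfl⟩ := hY
    exact FH_iter_nz d hd p q hmax hco i Z (hG Z hZ).1
  · intro Y hY
    rw [mem_biUnion] at hY
    obtain ⟨Z, hZ, hY⟩ := hY
    rw [mem_image] at hY
    obtain ⟨i, hi, rfl⟩ := hY
    rw [mem_range] at hi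
    obtain ⟨m, hm, h1⟩ := hN Z (hG Z hZ).2
    by_cases h2 : i + 1 < N Z
    · refine ⟨(FH d p q)^[i + 1] Z, ?_, ?_⟩
      · rw [mem_biUnion]
        exact ⟨Z, hZ, mem_image.mpr ⟨i + 1, mem_range.mpr h2, rfl⟩⟩
      · rw [Function.iterate_succ_apply']
        exact wd_self' _
    · have h3 : i + 1 = N Z := by omega
      refine ⟨(FH d p q)^[m] Z, ?_, ?_⟩
      · rw [mem_biUnion]
        exact ⟨Z, hZ, mem_image.mpr ⟨m, mem_range.mpr hm, rfl⟩⟩
      · have h4 : FH d p q ((FH d p q)^[i] Z) = (FH d p q)^[N Z] Z := by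
          rw [← h3, Function.iterate_succ_apply']
        rw [h4]
        exact wd_zero_symm h1

end

end Pool.Agent.E8helper71.MC
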