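import Pool.Agent.E8helper71.MC.Alg
import Pool.Agent.E8helper88.Mul.Iso

/-!
# Finite backward invariant sets have at most two points; conjugation by a given linear map
-/

set_option autoImplicit false
set_option linter.unusedSectionVars false
set_option linter.style.haveILetI false

namespace Pool.Agent.E8helper71.MC

open Polynomial Finset
open Pool.Agent.W277.UH Pool.Agent.E8helper88.Mul
open Pool.Agent.Y676.CH Pool.Agent.Y706.CH Pool.Agent.Y195.CH

universe u v w

section
variable {K : Type u} [Field K]

lemma wr_shift (p q : Polynomial K) (b : K) : wr (p - C b * q) q = wr p q := by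
  unfold wr
  simp only [derivative_sub, derivative_mul, derivative_C]
  ring

/-- the order of a fibre is at most one more than the order of the Wronskian -/
lemma mult_le (p q : Polynomial K) (hw : wr p q ≠ 0) (b x : K) :
    (p - C b * q).rootMultiplicity x ≤ 1 + (wr p q).rootMultiplicity x := by
  set P := p - C b * q with hPd
  set m := P.rootMultiplicity x with hm
  rcases Nat.eq_zero_or_pos m with h | h
  · omega
  obtain ⟨k, hk⟩ : ∃ k, m = k + 1 := ⟨m - 1, by omega⟩
  have h1 : (X - C x) ^ (k + 1) ∣ P := by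
    rw [← hk]
    exact pow_rootMultiplicity_dvd P x
  obtain ⟨G, hG⟩ := h1
  have h2 : (X - C x) ^ k ∣ wr p q := by
    rw [← wr_shift p q b, ← hPd]
    unfold wr
    rw [hG]
    refine ⟨((k + 1 : ℕ) : Polynomial K) * G * q + (X - C x) * derivative G * q -
      (X - C x) * G * derivative q, ?_⟩
    rw [derivative_mul, derivative_X_sub_C_pow, Nat.add_sub_cancel]
    simp only [map_natCast]
    ring
  have h3 : k ≤ (wr p q).rootMultiplicity x := (le_rootMultiplicity_iff hw).mpr h2
  omega

/-- a finite backward invariant set has at most two points -/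
theorem rh [IsAlgClosed K] [CharZero K] (d : ℕ) (hd : 2 ≤ d) (p q : Polynomial K)
    (hmax : max p.natDegree q.natDegree = d) (hco : IsCoprime p q) (E : Finset K)
    (hE : ∀ x : K, ∀ b ∈ E, p.eval x = b * q.eval x → x ∈ E)
    (hinf : ∀ b ∈ E, p.coeff d ≠ b * q.coeff d) : E.card ≤ 2 := by
  classical
  have hp : p.natDegree ≤ d := hmax ▸ le_max_left _ _
  have hq : q.natDegree ≤ d := hmax ▸ le_max_right _ _
  have hw := wr_ne_zero d (by omega) p q hmax hco
  have hwd := wr_deg d (by omega) p q hp hq
  have hcoef : ∀ b, (p - C b * q).coeff d = p.coeff d - b * q.coeff d := by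
    intro b
    rw [coeff_sub, coeff_C_mul]
  have hdeg : ∀ b ∈ E, (p - C b * q).natDegree = d := by
    intro b hb
    apply le_antisymm
    · exact (natDegree_sub_le _ _).trans (max_le hp ((natDegree_C_mul_le _ _).trans hq))
    · apply le_natDegree_of_ne_zero
      rw [hcoef]
      exact sub_ne_zero.mpr (hinf b hb)
  have hne : ∀ b ∈ E, p - C b * q ≠ 0 := by
    intro b hb h
    have := hdeg b hb
    rw [h, natDegree_zero] at this
    omega
  set P := ∏ b ∈ E, (p - C b * q) with hP
  have hP0 : P ≠ 0 := Finset.prod_ne_zero_iff.mpr hne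
  have hPd : P.natDegree = E.card * d := by
    rw [hP, natDegree_prod _ _ hne, Finset.sum_congr rfl hdeg, Finset.sum_const, smul_eq_mul]
  have hcard : P.roots.card = E.card * d := by
    rw [← hPd]
    exact (splits_iff_card_roots.mp (IsAlgClosed.splits P))
  have hroots : ∀ x ∈ P.roots, x ∈ E := by
    intro x hx
    rw [mem_roots hP0, hP, IsRoot, eval_prod, Finset.prod_eq_zero_iff] at hx
    obtain ⟨b, hb, h⟩ := hx
    apply hE x b hb
    rw [eval_sub, eval_mul, eval_C] at h
    exact sub_eq_zero.mp h
  have hsum : ∑ x ∈ E, P.roots.count x = P.roots.card := Multiset.sum_count_eq_card hroots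
  have hmul : ∀ x ∈ E, P.roots.count x ≤ 1 + (wr p q).roots.count x := by
    intro x hx
    rw [count_roots, count_roots]
    by_cases hex : ∃ b ∈ E, (p - C b * q).eval x = 0
    · obtain ⟨b, hb, h⟩ := hex
      rw [hP, ← Finset.mul_prod_erase E _ hb, rootMultiplicity_mul (mul_ne_zero (hne b hb)
        (Finset.prod_ne_zero_iff.mpr fun c hc => hne c (Finset.mem_of_mem_erase hc)))]
      have h1 : (∏ c ∈ E.erase b, (p - C c * q)).rootMultiplicity x = 0 := by
        apply rootMultiplicity_eq_zero
        rw [IsRoot, eval_prod, Finset.prod_eq_zero_iff]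
        rintro ⟨c, hc, h2⟩
        have hcb : c ≠ b := (Finset.mem_erase.mp hc).1
        rw [eval_sub, eval_mul, eval_C] at h h2
        have h3 : (b - c) * q.eval x = 0 := by linear_combination h2 - h
        have h4 : q.eval x = 0 := (mul_eq_zero.mp h3).resolve_left (sub_ne_zero.mpr hcb.symm)
        have h5 : p.eval x = 0 := by
          rw [h4] at h
          simpa using h
        obtain ⟨r, s, hrs⟩ := hco
        have h6 := congrArg (eval x) hrs
        rw [eval_add, eval_mul, eval_mul, h4, h5, eval_one] at h6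
        simp at h6
      rw [h1, add_zero]
      exact mult_le p q hw b x
    · push Not at hex
      have h1 : P.rootMultiplicity x = 0 := by
        apply rootMultiplicity_eq_zero
        rw [hP, IsRoot, eval_prod]
        exact Finset.prod_ne_zero_iff.mpr hex
      omega
  have hwsum : ∑ x ∈ E, (wr p q).roots.count x ≤ 2 * d - 2 := by
    calc ∑ x ∈ E, (wr p q).roots.count x
        ≤ ∑ x ∈ E ∪ (wr p q).roots.toFinset, (wr p q).roots.count x :=
          Finset.sum_le_sum_of_subset Finset.subset_union_left
      _ = (wr p q).roots.card := Multiset.sum_count_eq_card fun x hx =>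
          Finset.mem_union_right _ (Multiset.mem_toFinset.mpr hx)
      _ ≤ (wr p q).natDegree := card_roots' _
      _ ≤ 2 * d - 2 := hwd
  have h1 : E.card * d ≤ E.card + (2 * d - 2) := by
    calc E.card * d = ∑ x ∈ E, P.roots.count x := by rw [hsum, hcard]
      _ ≤ ∑ x ∈ E, (1 + (wr p q).roots.count x) := Finset.sum_le_sum hmul
      _ = E.card + ∑ x ∈ E, (wr p q).roots.count x := by
          rw [Finset.sum_add_distrib, Finset.sum_const, smul_eq_mul, mul_one]
      _ ≤ E.card + (2 * d - 2) := Nat.add_le_add_left hwsum _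
  by_contra hcon
  push Not at hcon
  obtain ⟨m, rfl⟩ : ∃ m, d = m + 2 := ⟨d - 2, by omega⟩
  have h2 : 2 * (m + 2) - 2 = 2 * m + 2 := by omega
  rw [h2] at h1
  nlinarith

/-- conjugation by a given linear map -/
theorem conj_exists (d : ℕ) (hd : 1 ≤ d) (p q : Polynomial K)
    (hmax : max p.natDegree q.natDegree = d) (hco : IsCoprime p q) (a b c e : K)
    (hdet : a * e - b * c ≠ 0) :
    ∃ u w : Polynomial K, (∀ Z, FH d u w (Ph a b c e Z) =
      (a * e - b * c) ^ d • Ph a b c e (FH d p q Z)) ∧ IsCoprime u w ∧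
      max u.natDegree w.natDegree = d := by
  set D := a * e - b * c with hD
  set L1 : Polynomial K := C e * X + C (-b) with hL1
  set L2 : Polynomial K := C (-c) * X + C a with hL2
  set u0 : Polynomial K := C a * hc d p L1 L2 + C b * hc d q L1 L2 with hu0
  set w0 : Polynomial K := C c * hc d p L1 L2 + C e * hc d q L1 L2 with hw0
  have hdeg : ∀ f : Polynomial K, (hc d f L1 L2).natDegree ≤ d := by
    intro f
    have := hc_degree d 1 f L1 L2 natDegree_linear_le natDegree_linear_le
    rwa [mul_one] at this
  have hud : u0.natDegree ≤ d := (natDegree_add_le _ _).trans (max_le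
    ((natDegree_C_mul_le _ _).trans (hdeg _)) ((natDegree_C_mul_le _ _).trans (hdeg _)))
  have hwd : w0.natDegree ≤ d := (natDegree_add_le _ _).trans (max_le
    ((natDegree_C_mul_le _ _).trans (hdeg _)) ((natDegree_C_mul_le _ _).trans (hdeg _)))
  have hadd : ∀ {F : Type u} [Field F] (f g : Polynomial F) (x y : F) (Z : F × F),
      hev d (C x * f + C y * g) Z = x * hev d f Z + y * hev d g Z := by
    intro F _ f g x y Z
    unfold hev
    rw [Finset.mul_sum, Finset.mul_sum, ← Finset.sum_add_distrib]
    apply Finset.sum_congr rfl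
    intro i _
    rw [coeff_add, coeff_C_mul, coeff_C_mul]
    ring
  have hFH : ∀ Y : K × K, FH d u0 w0 Y = Ph a b c e (FH d p q (Ph e (-b) (-c) a Y)) := by
    intro Y
    unfold FH
    rw [hadd, hadd, hev_lin, hev_lin]
    rfl
  have hconj : ∀ Z, FH d u0 w0 (Ph a b c e Z) = D ^ d • Ph a b c e (FH d p q Z) := by
    intro Z
    rw [hFH, Ph_adj', ← hD, FH_smul, Ph_smul]
  refine ⟨u0, w0, hconj, ?_⟩
  apply good_of_nz d u0 w0 hud hwd
  set φ := algebraMap K (AlgebraicClosure K) with hφ
  intro Z hZ hcon
  have h4 : FH d (u0.map φ) (w0.map φ) Z = Ph (φ a) (φ b) (φ c) (φ e)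
      (FH d (p.map φ) (q.map φ) (Ph (φ e) (φ (-b)) (φ (-c)) (φ a) Z)) := by
    unfold FH
    rw [hu0, hw0]
    simp only [Polynomial.map_add, Polynomial.map_mul, Polynomial.map_C]
    rw [hadd, hadd, hc_map', hc_map', hL1, hL2]
    simp only [Polynomial.map_add, Polynomial.map_mul, Polynomial.map_C, Polynomial.map_X]
    rw [hev_lin, hev_lin]
    rfl
  rw [h4] at hcon
  have hdetφ : φ a * φ e - φ b * φ c ≠ 0 := by
    rw [← map_mul, ← map_mul, ← map_sub]
    exact (_root_.map_ne_zero φ).mpr hdet
  refine Ph_ne _ _ _ _ hdetφ _ (FH_nz d hd _ _ (max_map φ p q d hmax)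
    ((Polynomial.isCoprime_map φ).mpr hco) _ (Ph_ne _ _ _ _ ?_ _ hZ)) hcon
  intro h5
  apply hdetφ
  have g1 : φ (-b) = -φ b := map_neg φ b
  have g2 : φ (-c) = -φ c := map_neg φ c
  rw [g1, g2] at h5
  linear_combination h5

end

end Pool.Agent.E8helper71.MC
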