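import Pool.Agent.E8helper71.MC.Alg
import Pool.Agent.E8helper71.MC.Loc

/-!
# Almost all places are places of good reduction
-/

set_option autoImplicit false
set_option linter.unusedSectionVars false

namespace Pool.Agent.E8helper71.MC

open Polynomial Finset
open Pool.Agent.W277.UH Pool.Agent.E8helper88.Mul

universe u w

section
variable {K : Type u} [Field K]

lemma IP_map {Ω : Type w} [NormedField Ω] (ι : K →+* Ω) (f : Polynomial K)
    (h : ∀ x ∈ f.coeffs, ‖ι x‖ ≤ 1) : IP (f.map ι) := fun i => by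
  rw [coeff_map]
  by_cases h0 : f.coeff i = 0
  · rw [h0, map_zero, norm_zero]
    exact zero_le_one
  · exact h _ (coeff_mem_coeffs h0)

theorem exists_E0 (d : ℕ) (hd : 1 ≤ d) (p q : Polynomial K)
    (hmax : max p.natDegree q.natDegree = d) (hco : IsCoprime p q) :
    ∃ E0 : Finset K, ∀ (Ω : Type w) [NormedField Ω] [IsUltrametricDist Ω] (ι : K →+* Ω),
      (∀ x ∈ E0, ‖ι x‖ ≤ 1 ∧ (x ≠ 0 → ‖ι x‖ = 1)) →
      IP (p.map ι) ∧ IP (q.map ι) ∧
        ∀ Z : Ω × Ω, nv Z = 1 → nv (FH d (p.map ι) (q.map ι) Z) = 1 := by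
  classical
  have hp : p.natDegree ≤ d := hmax ▸ le_max_left _ _
  have hq : q.natDegree ≤ d := hmax ▸ le_max_right _ _
  obtain ⟨R, hR, hbez⟩ := exists_bez d hd p q hmax hco
  obtain ⟨u0, w0, hu0, hw0, hb0⟩ := hbez 0 (by omega)
  obtain ⟨u1, w1, hu1, hw1, hb1⟩ := hbez (2 * d - 1) (by omega)
  refine ⟨{R} ∪ p.coeffs ∪ q.coeffs ∪ u0.coeffs ∪ w0.coeffs ∪ u1.coeffs ∪ w1.coeffs, ?_⟩
  intro Ω _ _ ι hE
  have hIP : ∀ f : Polynomial K, f.coeffs ⊆
      {R} ∪ p.coeffs ∪ q.coeffs ∪ u0.coeffs ∪ w0.coeffs ∪ u1.coeffs ∪ w1.coeffs →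
      IP (f.map ι) := fun f hf => IP_map ι f fun x hx => (hE x (hf hx)).1
  have ip : IP (p.map ι) := hIP p (by intro x hx; simp only [mem_union]; tauto)
  have iq : IP (q.map ι) := hIP q (by intro x hx; simp only [mem_union]; tauto)
  have iu0 : IP (u0.map ι) := hIP u0 (by intro x hx; simp only [mem_union]; tauto)
  have iw0 : IP (w0.map ι) := hIP w0 (by intro x hx; simp only [mem_union]; tauto)
  have iu1 : IP (u1.map ι) := hIP u1 (by intro x hx; simp only [mem_union]; tauto)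
  have iw1 : IP (w1.map ι) := hIP w1 (by intro x hx; simp only [mem_union]; tauto)
  have hR1 : ‖ι R‖ = 1 := (hE R (by simp)).2 hR
  refine ⟨ip, iq, fun Z hZ => ?_⟩
  have h1 : ‖hev d (p.map ι) Z‖ ≤ 1 := hev_int d _ ip hZ.le
  have h2 : ‖hev d (q.map ι) Z‖ ≤ 1 := hev_int d _ iq hZ.le
  apply le_antisymm
  · exact max_le h1 h2
  by_contra hcon
  push Not at hcon
  have h3 : ‖hev d (p.map ι) Z‖ < 1 := lt_of_le_of_lt (le_max_left _ _) hcon
  have h4 : ‖hev d (q.map ι) Z‖ < 1 := lt_of_le_of_lt (le_max_right _ _) hcon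
  have key : ∀ u w : Polynomial K, u.natDegree ≤ d - 1 → w.natDegree ≤ d - 1 → IP (u.map ι) →
      IP (w.map ι) → ∀ j < d + d, u * p + w * q = C R * X ^ j →
      ‖Z.1‖ ^ j * ‖Z.2‖ ^ (2 * d - 1 - j) < 1 := by
    intro u w hu hw iu iw j hj h
    have h5 := hev_bez d hd (p.map ι) (q.map ι) (u.map ι) (w.map ι) (natDegree_map_le.trans hp)
      (natDegree_map_le.trans hq) (natDegree_map_le.trans hu) (natDegree_map_le.trans hw) (ι R) j hj
      (by
        rw [← Polynomial.map_mul, ← Polynomial.map_mul, ← Polynomial.map_add, h,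
          Polynomial.map_mul, Polynomial.map_pow, Polynomial.map_C, Polynomial.map_X]) Z
    have h6 := congrArg norm h5
    rw [norm_mul, hR1, one_mul, norm_mul, norm_pow, norm_pow] at h6
    rw [← h6]
    refine lt_of_le_of_lt (norm_add_le_max' _ _) (max_lt ?_ ?_)
    · rw [norm_mul]
      calc _ ≤ 1 * ‖hev d (p.map ι) Z‖ :=
            mul_le_mul_of_nonneg_right (hev_int (d - 1) _ iu hZ.le) (norm_nonneg _)
        _ < 1 := by rw [one_mul]; exact h3
    · rw [norm_mul]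
      calc _ ≤ 1 * ‖hev d (q.map ι) Z‖ :=
            mul_le_mul_of_nonneg_right (hev_int (d - 1) _ iw hZ.le) (norm_nonneg _)
        _ < 1 := by rw [one_mul]; exact h4
  have k0 := key u0 w0 hu0 hw0 iu0 iw0 0 (by omega) hb0
  have k1 := key u1 w1 hu1 hw1 iu1 iw1 (2 * d - 1) (by omega) hb1
  rw [pow_zero, one_mul] at k0
  rw [Nat.sub_self, pow_zero, mul_one] at k1
  unfold nv at hZ
  rcases max_choice ‖Z.1‖ ‖Z.2‖ with h | h
  · rw [h] at hZ
    rw [hZ, one_pow] at k1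
    exact lt_irrefl _ k1
  · rw [h] at hZ
    rw [hZ, one_pow] at k0
    exact lt_irrefl _ k0

end

end Pool.Agent.E8helper71.MC
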